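import Pool.Agent.Lib.MP_c0051b_pr.Lower

/-! Asymptotics. -/

open Finset Equiv Filter Topology

namespace Pool.Agent.RandTransp

lemma G_bound {α β κ : ℝ} (hκ : 0 < κ) (h1 : κ ≤ α) (hα : α < 1) (hβ0 : 0 < β) (hβ : β ≤ 1 - α) :
    α - β + 1 / 2 * Real.log ((1 - α) ^ 2 + α * β) ≤ -(min (κ ^ 2 / 4) (Real.log 2 - 1 / 2)) := by
  have hα0 : 0 < α := hκ.trans_le h1
  have hs : 0 < 1 - α := by linarith
  rcases le_or_gt α (1 / 2) with hle | hgt
  · have hmin : min (κ ^ 2 / 4) (Real.log 2 - 1 / 2) ≤ κ ^ 2 / 4 := min_le_left _ _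
    have e1 : (1 - α) ^ 2 + α * β = (1 - α) ^ 2 * (1 + α * β / (1 - α) ^ 2) := by
      field_simp
    have hz : 0 ≤ α * β / (1 - α) ^ 2 := by positivity
    have h2 : Real.log ((1 - α) ^ 2 + α * β) ≤ 2 * Real.log (1 - α) + α * β / (1 - α) ^ 2 := by
      rw [e1, Real.log_mul (by positivity) (by positivity), Real.log_pow]
      have h3 := Real.log_le_sub_one_of_pos (show 0 < 1 + α * β / (1 - α) ^ 2 by positivity)
      push_cast
      linarith
    have h4 : α * β / (1 - α) ^ 2 ≤ 2 * β := by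
      rw [div_le_iff₀ (by positivity)]
      have h5 : α ≤ 2 * (1 - α) ^ 2 := by nlinarith
      nlinarith
    -- log (1 - α) ≤ -α - α^2/4
    have h6 : Real.log (1 - α) ≤ -α - α ^ 2 / 4 := by
      set s := Real.sqrt (1 - α) with hsdef
      have hs2 : s ^ 2 = 1 - α := Real.sq_sqrt hs.le
      have hs0 : 0 < s := Real.sqrt_pos.mpr hs
      have h7 : s ≤ 1 - α / 2 := by
        rw [hsdef, Real.sqrt_le_left (by linarith)]
        nlinarith [sq_nonneg α]
      have h8 : Real.log (1 - α) = 2 * Real.log s := by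
        rw [← hs2, Real.log_pow]; push_cast; ring
      have h9 := Real.log_le_sub_one_of_pos hs0
      rw [h8]
      have h10 : (α / 2) ^ 2 ≤ (1 - s) ^ 2 := by
        apply pow_le_pow_left₀ (by positivity)
        linarith
      nlinarith
    have h11 : κ ^ 2 ≤ α ^ 2 := pow_le_pow_left₀ hκ.le h1 2
    linarith
  · have hmin : min (κ ^ 2 / 4) (Real.log 2 - 1 / 2) ≤ Real.log 2 - 1 / 2 := min_le_right _ _
    set u := (1 - α) ^ 2 + α * β with hu
    have hu0 : 0 < u := by positivity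
    have h2 : Real.log u ≤ 4 * u - 1 - 2 * Real.log 2 := by
      have h3 := Real.log_le_sub_one_of_pos (show 0 < 4 * u by positivity)
      rw [Real.log_mul (by norm_num) hu0.ne'] at h3
      have h4 : Real.log 4 = 2 * Real.log 2 := by
        rw [show (4 : ℝ) = 2 ^ 2 by norm_num, Real.log_pow]; push_cast; ring
      rw [h4] at h3
      linarith
    have h5 : β * (2 * α - 1) ≤ (1 - α) * (2 * α - 1) := mul_le_mul_of_nonneg_right hβ (by linarith)
    nlinarith

/-- the high part -/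
lemma high_bound {n t a b : ℕ} {κ : ℝ} (hκ : 0 < κ) (hn : 0 < n)
    (ht : (1 / 2 : ℝ) * n * Real.log n ≤ t) (hb : 1 ≤ b) (hba : b ≤ a) (hbn : b ≤ n - a)
    (hK : κ * n ≤ (n - a : ℕ)) :
    (((a : ℝ) ^ 2 + ((n : ℝ) - a) * b) / (n : ℝ) ^ 2) ^ t * (n : ℝ) ^ (n - a - b)
      ≤ Real.exp (-(min (κ ^ 2 / 4) (Real.log 2 - 1 / 2)) * (n * Real.log n)) := by
  have hn' : (0 : ℝ) < n := by exact_mod_cast hn
  have hn1 : (1 : ℝ) ≤ n := by exact_mod_cast hn
  have hL : 0 ≤ Real.log n := Real.log_nonneg hn1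
  have han : a ≤ n := by omega
  have hcast : ((n - a : ℕ) : ℝ) = n - a := Nat.cast_sub han
  have hcast2 : ((n - a - b : ℕ) : ℝ) = n - a - b := by
    rw [Nat.cast_sub hbn, hcast]
  rw [hcast] at hK
  have ha1 : (1 : ℝ) ≤ a := by exact_mod_cast (show 1 ≤ a by omega)
  have hb1 : (1 : ℝ) ≤ b := by exact_mod_cast hb
  have hba' : (b : ℝ) ≤ a := by exact_mod_cast hba
  have hbn' : (b : ℝ) ≤ n - a := by rw [← hcast]; exact_mod_cast hbn
  set α : ℝ := (n - a) / n with hα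
  set β : ℝ := b / n with hβ
  have hG := G_bound (α := α) (β := β) hκ (by rw [hα, le_div_iff₀ hn']; exact hK)
    (by rw [hα, div_lt_one hn']; linarith) (by positivity)
    (by rw [hα, hβ, div_le_iff₀ hn']; field_simp; linarith)
  set c : ℝ := ((a : ℝ) ^ 2 + ((n : ℝ) - a) * b) / (n : ℝ) ^ 2 with hc
  have hcc : c = (1 - α) ^ 2 + α * β := by
    rw [hc, hα, hβ]; field_simp; ring
  have hc0 : 0 < c := by
    rw [hc]
    apply div_pos _ (by positivity)
    have : 0 ≤ ((n : ℝ) - a) * b := by nlinarith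
    nlinarith
  have hc1 : c ≤ 1 := by
    rw [hc, div_le_one (by positivity)]
    nlinarith
  have hlogc : Real.log c ≤ 0 := Real.log_nonpos hc0.le hc1
  have e1 : c ^ t = Real.exp (t * Real.log c) := by
    rw [← Real.log_pow, Real.exp_log (by positivity)]
  have e2 : (n : ℝ) ^ (n - a - b) = Real.exp ((n - a - b) * Real.log n) := by
    rw [← hcast2, ← Real.log_pow, Real.exp_log (by positivity)]
  rw [e1, e2, ← Real.exp_add]
  apply Real.exp_le_exp.mpr
  have h1 : t * Real.log c ≤ ((1 / 2 : ℝ) * n * Real.log n) * Real.log c :=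
    mul_le_mul_of_nonpos_right ht hlogc
  have h2 : ((n : ℝ) - a - b) * Real.log n = (n * Real.log n) * (α - β) := by
    rw [hα, hβ]; field_simp
  rw [← hcc] at hG
  have h3 : (n * Real.log n) * (α - β + 1 / 2 * Real.log c)
      ≤ (n * Real.log n) * (-(min (κ ^ 2 / 4) (Real.log 2 - 1 / 2))) :=
    mul_le_mul_of_nonneg_left hG (by positivity)
  rw [h2]
  linarith

/-- the low part -/
lemma low_bound {n t k : ℕ} {ε : ℝ} (hε : 0 < ε) (hn : 0 < n)
    (ht : (1 + ε) * ((1 / 2 : ℝ) * n * Real.log n) - 1 ≤ t) (hk1 : 1 ≤ k) (hkn : k ≤ n)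
    (hK : (k : ℝ) ≤ ε / (2 * (1 + ε)) * n) :
    ((((n : ℝ) - k) ^ 2 + (k : ℝ) ^ 2) / (n : ℝ) ^ 2) ^ t * (n : ℝ) ^ k
      ≤ Real.exp (1 - ε / 2 * Real.log n) := by
  have hn' : (0 : ℝ) < n := by exact_mod_cast hn
  have hn1 : (1 : ℝ) ≤ n := by exact_mod_cast hn
  have hL : 0 ≤ Real.log n := Real.log_nonneg hn1
  have hkn' : (k : ℝ) ≤ n := by exact_mod_cast hkn
  have hk1' : (1 : ℝ) ≤ k := by exact_mod_cast hk1
  set α : ℝ := k / n with hα
  have hα0 : 0 < α := by positivity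
  have hα1 : α ≤ 1 := by rw [hα, div_le_one hn']; exact hkn'
  have hακ : α ≤ ε / (2 * (1 + ε)) := by rw [hα, div_le_iff₀ hn']; exact hK
  have hcc : (((n : ℝ) - k) ^ 2 + (k : ℝ) ^ 2) / (n : ℝ) ^ 2 = 1 - 2 * (α * (1 - α)) := by
    rw [hα]; field_simp; ring
  have hq0 : 0 ≤ α * (1 - α) := mul_nonneg hα0.le (by linarith)
  have hq1 : α * (1 - α) ≤ 1 / 4 := by nlinarith [sq_nonneg (α - 1 / 2)]
  have h1 : ((((n : ℝ) - k) ^ 2 + (k : ℝ) ^ 2) / (n : ℝ) ^ 2) ^ t
      ≤ Real.exp (-(2 * (α * (1 - α))) * t) := by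
    rw [hcc, mul_comm (-(2 * (α * (1 - α)))) (t : ℝ), Real.exp_nat_mul]
    apply pow_le_pow_left₀ (by linarith)
    have := Real.add_one_le_exp (-(2 * (α * (1 - α))))
    linarith
  have e2 : (n : ℝ) ^ k = Real.exp (k * Real.log n) := by
    rw [← Real.log_pow, Real.exp_log (by positivity)]
  rw [e2]
  refine (mul_le_mul_of_nonneg_right h1 (Real.exp_pos _).le).trans ?_
  rw [← Real.exp_add]
  apply Real.exp_le_exp.mpr
  have h3 : -(2 * (α * (1 - α))) * t ≤ -(2 * (α * (1 - α))) * ((1 + ε) * ((1 / 2 : ℝ) * n * Real.log n) - 1) :=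
    mul_le_mul_of_nonpos_left ht (by linarith)
  have h4 : α * n = k := by rw [hα]; field_simp
  have h5 : (1 - α) * (1 + ε) ≥ 1 + ε / 2 := by
    have h6 : α * (1 + ε) ≤ ε / 2 := by
      have : ε / (2 * (1 + ε)) * (1 + ε) = ε / 2 := by field_simp
      rw [← this]
      exact mul_le_mul_of_nonneg_right hακ (by linarith)
    linarith
  have h7 : (k * Real.log n) * ((1 - α) * (1 + ε)) ≥ (k * Real.log n) * (1 + ε / 2) :=
    mul_le_mul_of_nonneg_left h5 (by positivity)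
  have h8 : -(2 * (α * (1 - α))) * ((1 + ε) * ((1 / 2 : ℝ) * n * Real.log n) - 1)
      = -((k * Real.log n) * ((1 - α) * (1 + ε))) + 2 * (α * (1 - α)) := by
    rw [← h4]; ring
  have h9 : ε / 2 * Real.log n ≤ ε / 2 * (k * Real.log n) := by
    apply mul_le_mul_of_nonneg_left _ (by positivity)
    nlinarith
  rw [h8] at h3
  nlinarith

/-- the factor of the sign part -/
lemma gamma_bound {n t : ℕ} {ε : ℝ} (hn : 2 ≤ n)
    (ht : (1 + ε) * ((1 / 2 : ℝ) * n * Real.log n) - 1 ≤ t) :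
    (1 - 2 / (n : ℝ)) ^ t ≤ Real.exp (1 - (1 + ε) * Real.log n) := by
  have hn' : (2 : ℝ) ≤ n := by exact_mod_cast hn
  have hγ : 0 ≤ 1 - 2 / (n : ℝ) := by
    rw [sub_nonneg, div_le_one (by linarith)]; exact hn'
  have h1 : (1 - 2 / (n : ℝ)) ^ t ≤ Real.exp (t * (-(2 / (n : ℝ)))) := by
    rw [Real.exp_nat_mul]
    apply pow_le_pow_left₀ hγ
    have := Real.add_one_le_exp (-(2 / (n : ℝ)))
    linarith
  refine h1.trans (Real.exp_le_exp.mpr ?_)
  have h2 : (t : ℝ) * (-(2 / (n : ℝ))) ≤ ((1 + ε) * ((1 / 2 : ℝ) * n * Real.log n) - 1) * (-(2 / (n : ℝ))) :=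
    mul_le_mul_of_nonpos_right ht (by
      have : 0 ≤ 2 / (n : ℝ) := by positivity
      linarith)
  have h3 : ((1 + ε) * ((1 / 2 : ℝ) * n * Real.log n) - 1) * (-(2 / (n : ℝ)))
      = -((1 + ε) * Real.log n) + 2 / n := by
    field_simp; ring
  have h4 : 2 / (n : ℝ) ≤ 1 := by rw [div_le_one (by linarith)]; exact hn'
  rw [h3] at h2
  linarith

lemma tendsto_logn : Tendsto (fun n : ℕ => Real.log n) atTop atTop :=
  Real.tendsto_log_atTop.comp tendsto_natCast_atTop_atTop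

theorem upper (p ε : ℝ) (hp : 0 < p) (hε : 0 < ε) :
    Tendsto (fun n : ℕ => lpDist p n ⌊(1 + ε) * ((1 / 2 : ℝ) * n * Real.log n)⌋₊) atTop (𝓝 0) := by
  obtain ⟨m, hm⟩ := exists_nat_ge p
  have hm1 : 1 ≤ m + 1 := by omega
  set κ : ℝ := ε / (2 * (1 + ε)) with hκdef
  have hκ : 0 < κ := by positivity
  set δ : ℝ := min (κ ^ 2 / 4) (Real.log 2 - 1 / 2) with hδdef
  have hδ : 0 < δ := by
    apply lt_min (by positivity)
    have := Real.log_two_gt_d9
    linarith
  set L1 : ℕ → ℝ := fun n => Real.exp (1 - ε / 2 * Real.log n) with hL1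
  set L2 : ℕ → ℝ := fun n => Real.exp (-δ * (n * Real.log n)) with hL2
  set γ' : ℕ → ℝ := fun n => Real.exp (1 - (1 + ε) * Real.log n) with hγ'
  set X' : ℕ → ℝ := fun n => (L1 n + 8 ^ n * L2 n) + 3 * γ' n * (1 + (L1 n + 8 ^ n * L2 n)) with hX'
  -- limits
  have hlog := tendsto_logn
  have hexpneg : ∀ (c : ℝ), 0 < c → Tendsto (fun n : ℕ => Real.exp (1 - c * Real.log n)) atTop (𝓝 0) := by
    intro c hc
    apply Real.tendsto_exp_atBot.comp
    have h1 : Tendsto (fun n : ℕ => c * Real.log n) atTop atTop := hlog.const_mul_atTop hc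
    have h2 := tendsto_neg_atTop_atBot.comp h1
    have h3 := tendsto_atBot_add_const_left atTop (1 : ℝ) h2
    refine h3.congr fun n => ?_
    simp only [Function.comp]
    ring
  have hL1t : Tendsto L1 atTop (𝓝 0) := hexpneg _ (by positivity)
  have hγt : Tendsto γ' atTop (𝓝 0) := hexpneg _ (by positivity)
  have hL2t : Tendsto (fun n : ℕ => (8 : ℝ) ^ n * L2 n) atTop (𝓝 0) := by
    have e : ∀ n : ℕ, (8 : ℝ) ^ n * L2 n = Real.exp (n * (Real.log 8 - δ * Real.log n)) := by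
      intro n
      have : (8 : ℝ) ^ n = Real.exp (n * Real.log 8) := by
        rw [← Real.log_pow, Real.exp_log (by positivity)]
      rw [this, hL2, ← Real.exp_add]
      congr 1
      ring
    simp_rw [e]
    apply Real.tendsto_exp_atBot.comp
    have h1 : Tendsto (fun n : ℕ => δ * Real.log n) atTop atTop := hlog.const_mul_atTop hδ
    have h2 := tendsto_neg_atTop_atBot.comp h1
    have h3 := tendsto_atBot_add_const_left atTop (Real.log 8) h2
    have h4 : Tendsto (fun n : ℕ => (n : ℝ) * (Real.log 8 + -(δ * Real.log n))) atTop atBot :=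
      tendsto_natCast_atTop_atTop.atTop_mul_atBot₀ h3
    refine h4.congr fun n => ?_
    ring
  have hXt : Tendsto X' atTop (𝓝 0) := by
    have h1 := (hL1t.add hL2t)
    have h2 := h1.add ((hγt.const_mul 3).mul (h1.const_add 1))
    simpa using h2
  have hfinal : Tendsto (fun n => (2 * X' n) * Real.exp (4 ^ (m + 1)) ^ (1 / ((2 * (m + 1) : ℕ) : ℝ)))
      atTop (𝓝 0) := by
    have h1 := (hXt.const_mul 2).mul_const (Real.exp (4 ^ (m + 1)) ^ (1 / ((2 * (m + 1) : ℕ) : ℝ)))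
    simpa using h1
  refine tendsto_of_tendsto_of_tendsto_of_le_of_le' tendsto_const_nhds hfinal
    (Eventually.of_forall fun n => lpDist_nonneg _ _ _) ?_
  -- eventually inequality
  have hev : ∀ᶠ n : ℕ in atTop, 1 ≤ ε * ((1 / 2 : ℝ) * n * Real.log n) := by
    have h1 : Tendsto (fun n : ℕ => ε * ((1 / 2 : ℝ) * n * Real.log n)) atTop atTop := by
      apply Tendsto.const_mul_atTop hε
      have h2 : Tendsto (fun n : ℕ => (1 / 2 : ℝ) * n) atTop atTop :=
        tendsto_natCast_atTop_atTop.const_mul_atTop (by norm_num)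
      exact h2.atTop_mul_atTop₀ hlog
    exact h1.eventually_ge_atTop 1
  filter_upwards [hev, eventually_ge_atTop 2] with n hn1 hn2
  have hn' : (2 : ℝ) ≤ n := by exact_mod_cast hn2
  set x : ℝ := (1 + ε) * ((1 / 2 : ℝ) * n * Real.log n) with hx
  set t : ℕ := ⌊x⌋₊ with ht
  have htx : x - 1 ≤ t := by
    have := Nat.lt_floor_add_one x
    rw [← ht] at this
    linarith
  have htx2 : (1 / 2 : ℝ) * n * Real.log n ≤ t := by
    have : x = ((1 / 2 : ℝ) * n * Real.log n) + ε * ((1 / 2 : ℝ) * n * Real.log n) := by rw [hx]; ring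
    linarith
  set K : ℕ := ⌊κ * n⌋₊ with hK
  have hL10 : 0 ≤ L1 n := (Real.exp_pos _).le
  have hL20 : 0 ≤ L2 n := (Real.exp_pos _).le
  have hlow : ∀ k : ℕ, 1 ≤ k → k ≤ K → k ≤ n →
      ((((n : ℝ) - k) ^ 2 + (k : ℝ) ^ 2) / (n : ℝ) ^ 2) ^ t * (n : ℝ) ^ k ≤ L1 n := by
    intro k hk1 hkK hkn
    apply low_bound hε (by omega) htx hk1 hkn
    have h1 : (k : ℝ) ≤ K := by exact_mod_cast hkK
    exact h1.trans (Nat.floor_le (by positivity))
  have hhigh : ∀ a b : ℕ, 1 ≤ b → b ≤ a → b ≤ n - a → K < n - a →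
      (((a : ℝ) ^ 2 + ((n : ℝ) - a) * b) / (n : ℝ) ^ 2) ^ t * (n : ℝ) ^ (n - a - b) ≤ L2 n := by
    intro a b hb hba hbn hKa
    apply high_bound hκ (by omega) htx2 hb hba hbn
    have h1 := Nat.lt_floor_add_one (κ * n)
    rw [← hK] at h1
    have h2 : ((K : ℝ) + 1) ≤ ((n - a : ℕ) : ℝ) := by exact_mod_cast hKa
    linarith
  set X : ℝ := (L1 n + 8 ^ n * L2 n) + 3 * (1 - 2 / (n : ℝ)) ^ t * (1 + (L1 n + 8 ^ n * L2 n)) with hXdef
  have hγ0 : 0 ≤ (1 - 2 / (n : ℝ)) ^ t := by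
    apply pow_nonneg
    rw [sub_nonneg, div_le_one (by linarith)]; exact hn'
  have hX0 : 0 ≤ X := by positivity
  have hXX' : X ≤ X' n := by
    have h1 := gamma_bound (ε := ε) hn2 htx
    change (L1 n + 8 ^ n * L2 n) + 3 * (1 - 2 / (n : ℝ)) ^ t * (1 + (L1 n + 8 ^ n * L2 n))
      ≤ (L1 n + 8 ^ n * L2 n) + 3 * γ' n * (1 + (L1 n + 8 ^ n * L2 n))
    gcongr
  have heven := even_bound hn2 hL10 hL20 hlow hhigh hm1 hXdef
  have h1 := lpDist_even_le hm1 (by positivity) heven (Real.exp_pos _).le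
  have hpm : p ≤ ((2 * (m + 1) : ℕ) : ℝ) := by
    push_cast
    have : (0 : ℝ) ≤ m := Nat.cast_nonneg m
    linarith
  refine (lpDist_mono hp hpm n t).trans (h1.trans ?_)
  gcongr

theorem lower_eventually (p ε : ℝ) (hp : 2 ≤ p) (hε : 0 < ε) :
    ∀ᶠ n : ℕ in atTop, Real.exp (-3 / 2) ≤ lpDist p n ⌊(1 - ε) * ((1 / 2 : ℝ) * n * Real.log n)⌋₊ := by
  set θ : ℝ := max (1 - ε) 0 with hθ
  have hθ0 : 0 ≤ θ := le_max_right _ _
  have hθ1 : θ < 1 := max_lt (by linarith) (by norm_num)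
  -- eventually conditions
  have hlog := tendsto_logn
  have h1 : ∀ᶠ n : ℕ in atTop, Real.log 2 ≤ (1 - θ) / 2 * Real.log n := by
    have : Tendsto (fun n : ℕ => (1 - θ) / 2 * Real.log n) atTop atTop :=
      hlog.const_mul_atTop (by linarith)
    exact this.eventually_ge_atTop _
  have h2 : ∀ᶠ n : ℕ in atTop, (1 + θ) / (1 - θ) * 2 ≤ (n : ℝ) :=
    tendsto_natCast_atTop_atTop.eventually_ge_atTop _
  filter_upwards [h1, h2, eventually_ge_atTop 3] with n hn1 hn2 hn3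
  have hn3' : (3 : ℝ) ≤ n := by exact_mod_cast hn3
  have hL : 0 ≤ Real.log n := Real.log_nonneg (by linarith)
  set t : ℕ := ⌊(1 - ε) * ((1 / 2 : ℝ) * n * Real.log n)⌋₊ with ht
  have htle : (t : ℝ) ≤ θ * ((1 / 2 : ℝ) * n * Real.log n) := by
    have h3 : (1 - ε) * ((1 / 2 : ℝ) * n * Real.log n) ≤ θ * ((1 / 2 : ℝ) * n * Real.log n) :=
      mul_le_mul_of_nonneg_right (le_max_left _ _) (by positivity)
    have h4 : t ≤ ⌊θ * ((1 / 2 : ℝ) * n * Real.log n)⌋₊ := Nat.floor_mono h3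
    exact (Nat.cast_le.mpr h4).trans (Nat.floor_le (by positivity))
  refine le_trans ?_ (lpDist_lower hp (by omega) t)
  have hkey : 1 ≤ ((n : ℝ) - 1) * (1 - 2 / (n : ℝ)) ^ t := by
    have hpos : 0 < 1 - 2 / (n : ℝ) := by
      rw [sub_pos, div_lt_one (by linarith)]; linarith
    have h5 : Real.exp (-(2 / ((n : ℝ) - 2))) ≤ 1 - 2 / (n : ℝ) := by
      rw [Real.exp_neg, inv_le_comm₀ (Real.exp_pos _) hpos]
      have h6 := Real.add_one_le_exp (2 / ((n : ℝ) - 2))
      have h7 : (1 - 2 / (n : ℝ))⁻¹ = 2 / ((n : ℝ) - 2) + 1 := by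
        have : (n : ℝ) - 2 ≠ 0 := by linarith
        field_simp
        ring
      rw [h7]; exact h6
    have h8 : Real.exp (t * (-(2 / ((n : ℝ) - 2)))) ≤ (1 - 2 / (n : ℝ)) ^ t := by
      rw [Real.exp_nat_mul]
      exact pow_le_pow_left₀ (Real.exp_pos _).le h5 t
    have h9 : (n : ℝ) / 2 ≤ (n : ℝ) - 1 := by linarith
    have h10 : Real.exp (Real.log n - Real.log 2) = (n : ℝ) / 2 := by
      rw [Real.exp_sub, Real.exp_log (by linarith), Real.exp_log (by norm_num)]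
    have h11 : 1 ≤ Real.exp (Real.log n - Real.log 2) * Real.exp (t * (-(2 / ((n : ℝ) - 2)))) := by
      rw [← Real.exp_add, Real.one_le_exp_iff]
      have h12 : (t : ℝ) * (2 / ((n : ℝ) - 2)) ≤ (1 + θ) / 2 * Real.log n := by
        have h13 : (t : ℝ) * (2 / ((n : ℝ) - 2)) ≤ (θ * ((1 / 2 : ℝ) * n * Real.log n)) * (2 / ((n : ℝ) - 2)) :=
          mul_le_mul_of_nonneg_right htle (div_nonneg (by norm_num) (by linarith))
        refine h13.trans ?_
        have h14 : (θ * ((1 / 2 : ℝ) * n * Real.log n)) * (2 / ((n : ℝ) - 2)) = (θ * n / (n - 2)) * Real.log n := by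
          have : (n : ℝ) - 2 ≠ 0 := by linarith
          field_simp
        rw [h14]
        apply mul_le_mul_of_nonneg_right _ hL
        rw [div_le_iff₀ (by linarith)]
        have h15 : (1 + θ) * 2 ≤ (n : ℝ) * (1 - θ) := by
          have h16 : (1 + θ) / (1 - θ) * 2 * (1 - θ) ≤ n * (1 - θ) :=
            mul_le_mul_of_nonneg_right hn2 (by linarith)
          have h17 : (1 + θ) / (1 - θ) * 2 * (1 - θ) = (1 + θ) * 2 := by
            have : 1 - θ ≠ 0 := by linarith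
            field_simp
          rwa [h17] at h16
        nlinarith
      have h18 : (t : ℝ) * (-(2 / ((n : ℝ) - 2))) = -((t : ℝ) * (2 / ((n : ℝ) - 2))) := by ring
      rw [h18]
      nlinarith
    refine h11.trans ?_
    rw [h10]
    apply mul_le_mul h9 h8 (Real.exp_pos _).le (by linarith)
  nlinarith [Real.exp_pos (-3 / 2 : ℝ)]

theorem cutoff (p : ℝ) (hp : 2 < p) : HasLpCutoff p (fun n => (1 / 2 : ℝ) * n * Real.log n) := by
  intro ε hε
  refine ⟨upper p ε (by linarith) hε, ?_⟩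
  have h1 := lower_eventually p ε hp.le hε
  have h2 : ((Real.exp (-3 / 2) : ℝ) : EReal) ≤
      liminf (fun n : ℕ => ((lpDist p n ⌊(1 - ε) * ((1 / 2 : ℝ) * n * Real.log n)⌋₊ : ℝ) : EReal)) atTop := by
    apply le_liminf_of_le
    · isBoundedDefault
    · filter_upwards [h1] with n hn
      exact EReal.coe_le_coe_iff.mpr hn
  refine lt_of_lt_of_le ?_ h2
  exact_mod_cast Real.exp_pos _

end Pool.Agent.RandTransp
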