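import Pool.Agent.Lib.MP_c0051b_pr.Walk

/-! Subgroup averages, the comparison function, sign twist. -/

open Finset Equiv
open scoped RealInnerProductSpace

namespace Pool.Agent.RandTransp

variable {n : ℕ}

open Classical in
/-- indicator function of a subgroup -/
noncomputable def ind (H : Subgroup (Perm (Fin n))) : Perm (Fin n) → ℝ := fun σ => if σ ∈ H then 1 else 0

lemma Lam_ind (H : Subgroup (Perm (Fin n))) (v : E n) [DecidablePred (· ∈ H)] :
    Lam (ind H) v = ∑ k ∈ univ.filter (· ∈ H), reg k v := by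
  rw [Lam_apply, sum_filter]
  refine sum_congr rfl fun k _ => ?_
  unfold ind
  by_cases hk : k ∈ H
  · simp [hk]
  · simp [hk]

lemma reg_Lam_ind (H : Subgroup (Perm (Fin n))) (v : E n) {h : Perm (Fin n)} (hh : h ∈ H) :
    reg h (Lam (ind H) v) = Lam (ind H) v := by
  classical
  rw [Lam_ind, map_sum]
  simp_rw [rho_mul]
  refine Finset.sum_equiv (Equiv.mulLeft h) (fun k => ?_) (fun k _ => rfl)
  simp only [mem_filter, mem_univ, true_and, Equiv.coe_mulLeft]
  exact (Subgroup.mul_mem_cancel_left H hh).symm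

lemma ind_inner_nonneg (H : Subgroup (Perm (Fin n))) (v : E n) : 0 ≤ ⟪Lam (ind H) v, v⟫ := by
  classical
  have h1 : ⟪Lam (ind H) v, Lam (ind H) v⟫ = ((univ.filter (· ∈ H)).card : ℝ) * ⟪Lam (ind H) v, v⟫ := by
    conv_lhs => rw [Lam_ind H v, inner_sum]
    rw [← nsmul_eq_mul, ← Finset.sum_const]
    refine sum_congr rfl fun k hk => ?_
    rw [mem_filter] at hk
    rw [← Lam_ind H v]
    rw [real_inner_comm, reg_inner', reg_Lam_ind H v (H.inv_mem hk.2), real_inner_comm]
  have h2 : 0 ≤ ⟪Lam (ind H) v, Lam (ind H) v⟫ := real_inner_self_nonneg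
  rw [h1] at h2
  have h3 : (0 : ℝ) < ((univ.filter (· ∈ H)).card : ℝ) := by
    exact_mod_cast Finset.card_pos.mpr ⟨1, by simp [H.one_mem]⟩
  exact nonneg_of_mul_nonneg_right h2 h3

lemma ind_fixed (H : Subgroup (Perm (Fin n))) [DecidablePred (· ∈ H)] (v : E n)
    (hv : ∀ g ∈ H, reg g v = v) : Lam (ind H) v = ((univ.filter (· ∈ H)).card : ℝ) • v := by
  rw [Lam_ind, Nat.cast_smul_eq_nsmul, ← Finset.sum_const]
  exact sum_congr rfl fun k hk => hv k (mem_filter.mp hk).2

/-- subgroup generated by the transpositions inside `A` and inside `B` -/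
def HAB (A B : Finset (Fin n)) : Subgroup (Perm (Fin n)) :=
  Subgroup.closure {g | ∃ i j, ((i ∈ A ∧ j ∈ A) ∨ (i ∈ B ∧ j ∈ B)) ∧ g = swap i j}

lemma HAB_fixed {A B : Finset (Fin n)} {v : E n} (hA : Inv reg A v) (hB : Inv reg B v) :
    ∀ g ∈ HAB A B, reg g v = v := by
  intro g hg
  unfold HAB at hg
  induction hg using Subgroup.closure_induction with
  | mem x hx =>
    obtain ⟨i, j, h | h, rfl⟩ := hx
    · exact hA i h.1 j h.2
    · exact hB i h.1 j h.2
  | one => exact rho_one reg v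
  | mul x y _ _ hx hy => rw [← rho_mul, hy, hx]
  | inv x _ hx =>
    conv_lhs => rw [← hx]
    rw [rho_mul, inv_mul_cancel, rho_one]

lemma HAB_empty_fix {A : Finset (Fin n)} {σ : Perm (Fin n)} (h : σ ∈ HAB A ∅) :
    ∀ i ∉ A, σ i = i := by
  unfold HAB at h
  induction h using Subgroup.closure_induction with
  | mem x hx =>
    obtain ⟨i, j, h | h, rfl⟩ := hx
    · intro k hk
      exact swap_apply_of_ne_of_ne (fun e => hk (e ▸ h.1)) (fun e => hk (e ▸ h.2))
    · simp at h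
  | one => intro k _; rfl
  | mul x y _ _ hx hy => intro k hk; rw [Perm.mul_apply, hy k hk, hx k hk]
  | inv x _ hx =>
    intro k hk
    rw [Perm.inv_eq_iff_eq]
    exact (hx k hk).symm

lemma ofSubtype_mem {A : Finset (Fin n)} {P : Perm (Fin n) → Prop} (h1 : P 1)
    (h2 : ∀ i ∈ A, ∀ j ∈ A, ∀ g, P g → P (swap i j * g)) (α : Perm {x // x ∈ A}) : P (Perm.ofSubtype α) := by
  induction α using Perm.swap_induction_on with
  | one => rw [map_one]; exact h1
  | swap_mul f x y _ ih =>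
    rw [map_mul, Perm.ofSubtype_swap_eq]
    exact h2 x x.2 y y.2 _ ih

lemma HAB_card {A B : Finset (Fin n)} (hAB : Disjoint A B) [DecidablePred (· ∈ HAB A B)] :
    A.card.factorial * B.card.factorial ≤ (univ.filter (· ∈ HAB A B)).card := by
  have h1 : A.card.factorial * B.card.factorial
      = (univ : Finset (Perm {x // x ∈ A} × Perm {x // x ∈ B})).card := by
    rw [Finset.card_univ, Fintype.card_prod, Fintype.card_perm, Fintype.card_perm, Fintype.card_coe,
      Fintype.card_coe]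
  rw [h1]
  refine Finset.card_le_card_of_injOn (fun p => Perm.ofSubtype p.1 * Perm.ofSubtype p.2) ?_ ?_
  · rintro ⟨α, β⟩ -
    simp only [coe_filter, mem_univ, true_and, Set.mem_ofPred_eq]
    refine Subgroup.mul_mem _ ?_ ?_
    · refine ofSubtype_mem (P := fun g => g ∈ HAB A B) (Subgroup.one_mem _) ?_ α
      intro i hi j hj g hg
      exact Subgroup.mul_mem _ (Subgroup.subset_closure ⟨i, j, Or.inl ⟨hi, hj⟩, rfl⟩) hg
    · refine ofSubtype_mem (P := fun g => g ∈ HAB A B) (Subgroup.one_mem _) ?_ β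
      intro i hi j hj g hg
      exact Subgroup.mul_mem _ (Subgroup.subset_closure ⟨i, j, Or.inr ⟨hi, hj⟩, rfl⟩) hg
  · rintro ⟨α, β⟩ - ⟨α', β'⟩ - h
    simp only at h
    have hβ : β = β' := by
      ext x
      have h2 := Equiv.congr_fun h x
      rw [Perm.mul_apply, Perm.mul_apply, Perm.ofSubtype_apply_coe, Perm.ofSubtype_apply_coe,
        Perm.ofSubtype_apply_of_not_mem, Perm.ofSubtype_apply_of_not_mem] at h2
      · exact congrArg Fin.val h2
      · exact fun hA => (Finset.disjoint_left.mp hAB hA) (β' x).2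
      · exact fun hA => (Finset.disjoint_left.mp hAB hA) (β x).2
    subst hβ
    have h3 := mul_right_cancel h
    rw [Perm.ofSubtype_injective h3]

open Classical in
/-- weighted indicator -/
noncomputable def zf (A B : Finset (Fin n)) : Perm (Fin n) → ℝ :=
  ((A.card.factorial * B.card.factorial : ℕ) : ℝ)⁻¹ • ind (HAB A B)

lemma zf_nonneg (A B : Finset (Fin n)) (σ : Perm (Fin n)) : 0 ≤ zf A B σ := by
  unfold zf ind
  simp only [Pi.smul_apply, smul_eq_mul]
  split_ifs <;> positivity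

lemma zf_inner_nonneg (A B : Finset (Fin n)) (v : E n) : 0 ≤ ⟪Lam (zf A B) v, v⟫ := by
  unfold zf
  rw [Lam_smul, LinearMap.smul_apply, real_inner_smul_left]
  exact mul_nonneg (by positivity) (ind_inner_nonneg _ v)

lemma zf_inner_fixed {A B : Finset (Fin n)} (hAB : Disjoint A B) {v : E n} (hA : Inv reg A v)
    (hB : Inv reg B v) : ‖v‖ ^ 2 ≤ ⟪Lam (zf A B) v, v⟫ := by
  classical
  unfold zf
  rw [Lam_smul, LinearMap.smul_apply, ind_fixed _ v (HAB_fixed hA hB), smul_smul, real_inner_smul_left,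
    real_inner_self_eq_norm_sq]
  have h1 := HAB_card hAB
  have h2 : (1 : ℝ) ≤ ((A.card.factorial * B.card.factorial : ℕ) : ℝ)⁻¹ * ((univ.filter (· ∈ HAB A B)).card : ℝ) := by
    rw [inv_mul_eq_div, one_le_div]
    · exact_mod_cast h1
    · positivity
  nlinarith [sq_nonneg ‖v‖]

lemma HAB_conj {A B : Finset (Fin n)} (g : Perm (Fin n)) {k : Perm (Fin n)} (hk : k ∈ HAB A B) :
    g * k * g⁻¹ ∈ HAB (A.map g.toEmbedding) (B.map g.toEmbedding) := by
  unfold HAB at hk
  induction hk using Subgroup.closure_induction with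
  | mem x hx =>
    obtain ⟨i, j, h, rfl⟩ := hx
    rw [← Equiv.swap_apply_apply]
    refine Subgroup.subset_closure ⟨g i, g j, ?_, rfl⟩
    rcases h with h | h
    · left; exact ⟨mem_map_of_mem g.toEmbedding h.1, mem_map_of_mem g.toEmbedding h.2⟩
    · right; exact ⟨mem_map_of_mem g.toEmbedding h.1, mem_map_of_mem g.toEmbedding h.2⟩
  | one => rw [mul_one, mul_inv_cancel]; exact Subgroup.one_mem _
  | mul x y _ _ hx hy =>
    have : g * (x * y) * g⁻¹ = (g * x * g⁻¹) * (g * y * g⁻¹) := by group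
    rw [this]; exact Subgroup.mul_mem _ hx hy
  | inv x _ hx =>
    have : g * x⁻¹ * g⁻¹ = (g * x * g⁻¹)⁻¹ := by group
    rw [this]; exact Subgroup.inv_mem _ hx

lemma map_inv_map (A : Finset (Fin n)) (g : Perm (Fin n)) :
    (A.map g.toEmbedding).map (g⁻¹ : Perm (Fin n)).toEmbedding = A := by
  ext x
  simp only [mem_map_equiv]
  constructor
  · intro h
    have e : g.symm ((g⁻¹ : Perm (Fin n)).symm x) = x := by
      change g⁻¹ ((g⁻¹)⁻¹ x) = x
      rw [← Perm.mul_apply, mul_inv_cancel, Perm.one_apply]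
    rwa [e] at h
  · intro h
    have e : g.symm ((g⁻¹ : Perm (Fin n)).symm x) = x := by
      change g⁻¹ ((g⁻¹)⁻¹ x) = x
      rw [← Perm.mul_apply, mul_inv_cancel, Perm.one_apply]
    rwa [e]

lemma HAB_conj_iff {A B : Finset (Fin n)} (g k : Perm (Fin n)) :
    g * k * g⁻¹ ∈ HAB (A.map g.toEmbedding) (B.map g.toEmbedding) ↔ k ∈ HAB A B := by
  constructor
  · intro h
    have := HAB_conj g⁻¹ h
    rw [map_inv_map, map_inv_map] at this
    have e : g⁻¹ * (g * k * g⁻¹) * (g⁻¹)⁻¹ = k := by group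
    rwa [e] at this
  · exact HAB_conj g

lemma zf_conj (A B : Finset (Fin n)) (g k : Perm (Fin n)) :
    zf (A.map g.toEmbedding) (B.map g.toEmbedding) (g * k * g⁻¹) = zf A B k := by
  unfold zf ind
  simp only [Pi.smul_apply, card_map]
  by_cases h : k ∈ HAB A B
  · rw [if_pos h, if_pos ((HAB_conj_iff g k).mpr h)]
  · rw [if_neg h, if_neg (fun h' => h ((HAB_conj_iff g k).mp h'))]

lemma zf_inv (A B : Finset (Fin n)) (k : Perm (Fin n)) : zf A B k⁻¹ = zf A B k := by
  unfold zf ind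
  simp only [Pi.smul_apply]
  by_cases h : k ∈ HAB A B
  · rw [if_pos h, if_pos (inv_mem_iff.mpr h)]
  · rw [if_neg h, if_neg (fun h' => h (inv_mem_iff.mp h'))]

/-- weighted sum of the indicators -/
noncomputable def Zw (n : ℕ) (W : ℕ → ℕ → ℝ) : Perm (Fin n) → ℝ :=
  ∑ A : Finset (Fin n), ∑ B : Finset (Fin n), W A.card B.card • zf A B

lemma Zw_apply (W : ℕ → ℕ → ℝ) (σ : Perm (Fin n)) :
    Zw n W σ = ∑ A : Finset (Fin n), ∑ B : Finset (Fin n), W A.card B.card * zf A B σ := by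
  simp [Zw, Finset.sum_apply]

/-- permutations act on finsets -/
def mapE (g : Perm (Fin n)) : Finset (Fin n) ≃ Finset (Fin n) where
  toFun A := A.map g.toEmbedding
  invFun A := A.map (g⁻¹ : Perm (Fin n)).toEmbedding
  left_inv A := map_inv_map A g
  right_inv A := by
    have := map_inv_map A g⁻¹
    rwa [inv_inv] at this

lemma Zw_cl (W : ℕ → ℕ → ℝ) : IsCl (Zw n W) := by
  constructor
  · intro g k
    rw [Zw_apply, Zw_apply]
    symm
    refine Fintype.sum_equiv (mapE g) _ _ fun A => ?_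
    refine Fintype.sum_equiv (mapE g) _ _ fun B => ?_
    change _ = W (A.map g.toEmbedding).card (B.map g.toEmbedding).card *
      zf (A.map g.toEmbedding) (B.map g.toEmbedding) (g * k * g⁻¹)
    rw [zf_conj, card_map, card_map]
  · intro k
    rw [Zw_apply, Zw_apply]
    simp_rw [zf_inv]

lemma Lam_Zw_inner (W : ℕ → ℕ → ℝ) (v : E n) : ⟪Lam (Zw n W) v, v⟫ =
    ∑ A : Finset (Fin n), ∑ B : Finset (Fin n), W A.card B.card * ⟪Lam (zf A B) v, v⟫ := by
  unfold Zw
  rw [Lam_sum, LinearMap.sum_apply, sum_inner]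
  refine sum_congr rfl fun A _ => ?_
  rw [Lam_sum, LinearMap.sum_apply, sum_inner]
  refine sum_congr rfl fun B _ => ?_
  rw [Lam_smul, LinearMap.smul_apply, real_inner_smul_left]

lemma Lam_Zw_nonneg {W : ℕ → ℕ → ℝ} (hW : ∀ a b, 0 ≤ W a b) (v : E n) : 0 ≤ ⟪Lam (Zw n W) v, v⟫ := by
  rw [Lam_Zw_inner]
  exact sum_nonneg fun A _ => sum_nonneg fun B _ => mul_nonneg (hW _ _) (zf_inner_nonneg A B v)

lemma Lam_Zw_ge {W : ℕ → ℕ → ℝ} (hW : ∀ a b, 0 ≤ W a b) {A B : Finset (Fin n)} (hAB : Disjoint A B)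
    {v : E n} (hA : Inv reg A v) (hB : Inv reg B v) :
    W A.card B.card * ‖v‖ ^ 2 ≤ ⟪Lam (Zw n W) v, v⟫ := by
  rw [Lam_Zw_inner]
  have h1 : W A.card B.card * ‖v‖ ^ 2 ≤ W A.card B.card * ⟪Lam (zf A B) v, v⟫ :=
    mul_le_mul_of_nonneg_left (zf_inner_fixed hAB hA hB) (hW _ _)
  refine h1.trans ?_
  have h2 : W A.card B.card * ⟪Lam (zf A B) v, v⟫
      ≤ ∑ B : Finset (Fin n), W A.card B.card * ⟪Lam (zf A B) v, v⟫ :=
    Finset.single_le_sum (f := fun B : Finset (Fin n) => W A.card B.card * ⟪Lam (zf A B) v, v⟫)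
      (fun B _ => mul_nonneg (hW _ _) (zf_inner_nonneg A B v)) (mem_univ B)
  refine h2.trans ?_
  exact Finset.single_le_sum (f := fun A : Finset (Fin n) => ∑ B : Finset (Fin n), W A.card B.card * ⟪Lam (zf A B) v, v⟫)
      (fun A _ => sum_nonneg fun B _ => mul_nonneg (hW _ _) (zf_inner_nonneg A B v)) (mem_univ A)

/-! ### constants -/

/-- the uniform distribution -/
noncomputable def cst (n : ℕ) : Perm (Fin n) → ℝ := fun _ => (n.factorial : ℝ)⁻¹

lemma cst_cl : IsCl (cst n) := ⟨fun _ _ => rfl, fun _ => rfl⟩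

lemma Lam_cst_apply (f : E n) (σ : Perm (Fin n)) : Lam (cst n) f σ = (n.factorial : ℝ)⁻¹ * ∑ k, f k := by
  rw [Lam_apply', mul_sum]
  unfold cst
  exact Fintype.sum_equiv ((Equiv.inv _).trans (Equiv.mulRight σ)) _ _ fun k => rfl

lemma Lam_cst_inner (f : E n) : ⟪Lam (cst n) f, f⟫ = (n.factorial : ℝ)⁻¹ * (∑ k, f k) ^ 2 := by
  rw [PiLp.inner_apply]
  simp only [RCLike.inner_apply, conj_trivial, Lam_cst_apply]
  rw [← sum_mul]
  ring

lemma Lam_cst_inner_nonneg (f : E n) : 0 ≤ ⟪Lam (cst n) f, f⟫ := by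
  rw [Lam_cst_inner]; positivity

lemma Lam_cst_inner_le (f : E n) : ⟪Lam (cst n) f, f⟫ ≤ ‖f‖ ^ 2 := by
  rw [Lam_cst_inner, EuclideanSpace.real_norm_sq_eq]
  have h := sq_sum_le_card_mul_sum_sq (s := (univ : Finset (Perm (Fin n)))) (f := fun k => f k)
  rw [card_univ, Fintype.card_perm, Fintype.card_fin] at h
  rw [inv_mul_le_iff₀ (by positivity)]
  exact h

lemma Lam_cst_reg (g : Perm (Fin n)) (f : E n) : Lam (cst n) (reg g f) = Lam (cst n) f := by
  ext σ
  rw [Lam_cst_apply, Lam_cst_apply]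
  congr 1
  simp_rw [reg_apply]
  exact Fintype.sum_equiv (Equiv.mulLeft g⁻¹) _ _ fun k => rfl

lemma Lam_cst_inv {f : E n} (h : ∀ g, reg g f = f) : Lam (cst n) f = f := by
  rw [Lam_apply]
  simp_rw [h]
  unfold cst
  rw [sum_const, card_univ, Fintype.card_perm, Fintype.card_fin, ← Nat.cast_smul_eq_nsmul ℝ, smul_smul,
    mul_inv_cancel₀ (by positivity), one_smul]

lemma K1_sum (hn : 0 < n) : ∑ k, K1 n k = 1 := by
  unfold K1
  rw [← sum_div, ← Nat.cast_sum, ← Finset.card_eq_sum_card_fiberwise (t := univ) (fun _ _ => mem_univ _)]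
  rw [card_univ, Fintype.card_prod, Fintype.card_fin]
  push_cast
  field_simp

lemma Lam_cst_K1 (hn : 0 < n) (f : E n) : Lam (cst n) (Lam (K1 n) f) = Lam (cst n) f := by
  rw [Lam_apply (K1 n), map_sum]
  simp_rw [map_smul, Lam_cst_reg]
  rw [← sum_smul, K1_sum hn, one_smul]

/-! ### the sign twist -/

/-- multiplication with the sign -/
noncomputable def sg (n : ℕ) : Perm (Fin n) → ℝ := fun σ => ((Perm.sign σ : ℤ) : ℝ)

lemma sg_mul (g h : Perm (Fin n)) : sg n (g * h) = sg n g * sg n h := by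
  unfold sg; rw [Perm.sign_mul]; push_cast; ring

lemma sg_inv (g : Perm (Fin n)) : sg n g⁻¹ = sg n g := by
  unfold sg; rw [Perm.sign_inv]

lemma sg_sq (g : Perm (Fin n)) : sg n g * sg n g = 1 := by
  unfold sg
  rcases Int.units_eq_one_or (Perm.sign g) with h | h <;> rw [h] <;> simp

lemma abs_sg (g : Perm (Fin n)) : |sg n g| = 1 := by
  have h := sg_sq g
  have h2 : |sg n g| * |sg n g| = 1 := by rw [← abs_mul, h, abs_one]
  nlinarith [abs_nonneg (sg n g)]

/-- multiplication with the sign, as a linear map -/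
noncomputable def J (f : E n) : E n := WithLp.toLp 2 fun σ => sg n σ * f σ

lemma J_apply (f : E n) (σ : Perm (Fin n)) : J f σ = sg n σ * f σ := rfl

lemma J_J (f : E n) : J (J f) = f := by
  ext σ
  rw [J_apply, J_apply, ← mul_assoc, sg_sq, one_mul]

lemma J_add (f g : E n) : J (f + g) = J f + J g := by
  ext σ
  simp only [J_apply, PiLp.add_apply]; ring

lemma J_smul (c : ℝ) (f : E n) : J (c • f) = c • J f := by
  ext σ
  simp only [J_apply, PiLp.smul_apply, smul_eq_mul]; ring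

lemma J_inner (f g : E n) : ⟪J f, g⟫ = ⟪f, J g⟫ := by
  rw [PiLp.inner_apply, PiLp.inner_apply]
  refine sum_congr rfl fun σ _ => ?_
  simp only [RCLike.inner_apply, conj_trivial, J_apply]; ring

lemma J_norm (f : E n) : ‖J f‖ ^ 2 = ‖f‖ ^ 2 := by
  rw [← real_inner_self_eq_norm_sq, ← real_inner_self_eq_norm_sq, J_inner, J_J]

lemma J_reg (g : Perm (Fin n)) (f : E n) : J (reg g f) = sg n g • reg g (J f) := by
  ext σ
  simp only [J_apply, PiLp.smul_apply, smul_eq_mul, reg_apply]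
  rw [sg_mul, sg_inv, ← mul_assoc, ← mul_assoc, sg_sq, one_mul]

lemma Lam_sg (κ : Perm (Fin n) → ℝ) (f : E n) : Lam (sg n * κ) f = J (Lam κ (J f)) := by
  ext σ
  rw [J_apply, Lam_apply', Lam_apply', mul_sum]
  refine sum_congr rfl fun k _ => ?_
  rw [J_apply, sg_mul, sg_inv, Pi.mul_apply]
  have h := sg_sq σ
  linear_combination (- sg n k * κ k * f (k⁻¹ * σ)) * h

lemma Lam_sg_inner (κ : Perm (Fin n) → ℝ) (f : E n) :
    ⟪Lam (sg n * κ) f, f⟫ = ⟪Lam κ (J f), J f⟫ := by
  rw [Lam_sg, J_inner]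

lemma sg_cl {κ : Perm (Fin n) → ℝ} (h : IsCl κ) : IsCl (sg n * κ) := by
  constructor
  · intro g k
    rw [Pi.mul_apply, Pi.mul_apply, h.1, sg_mul, sg_mul, sg_inv]
    have := sg_sq g
    linear_combination (sg n k * κ k) * this
  · intro k
    rw [Pi.mul_apply, Pi.mul_apply, h.2, sg_inv]

lemma QL_J (f : E n) : QL reg univ univ (J f) = (2 * n : ℝ) • J f - J (QL reg univ univ f) := by
  have hJs : ∀ (s : Finset (Fin n)) (F : Fin n → E n), J (∑ x ∈ s, F x) = ∑ x ∈ s, J (F x) := by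
    classical
    intro s F
    induction s using Finset.induction_on with
    | empty => ext σ; simp [J_apply]
    | insert a s ha ih => rw [sum_insert ha, sum_insert ha, J_add, ih]
  rw [QL_apply, QL_apply, hJs]
  simp_rw [hJs]
  have h1 : ∀ x y : Fin n, reg (swap x y) (J f) = (if x = y then (2 : ℝ) • J f else 0) - J (reg (swap x y) f) := by
    intro x y
    rw [J_reg]
    by_cases hxy : x = y
    · subst hxy
      rw [swap_self]
      have e1 : (Equiv.refl (Fin n) : Perm (Fin n)) = 1 := rfl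
      rw [e1, rho_one]
      have e2 : sg n 1 = 1 := by unfold sg; simp
      rw [e2, if_pos rfl, one_smul, two_smul]
      abel
    · rw [if_neg hxy]
      have e2 : sg n (swap x y) = -1 := by unfold sg; rw [Perm.sign_swap hxy]; simp
      rw [e2]
      simp
  simp_rw [h1, sum_sub_distrib]
  congr 1
  simp only [sum_ite_eq, mem_univ, if_true, sum_const, card_univ, Fintype.card_fin]
  rw [← Nat.cast_smul_eq_nsmul ℝ, smul_smul, mul_comm]

lemma K1_J (hn : 0 < n) (f : E n) : Lam (K1 n) (J f) = (2 / n : ℝ) • J f - J (Lam (K1 n) f) := by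
  rw [Lam_K1, Lam_K1, QL_J, smul_sub, smul_smul, J_smul]
  congr 2
  have : (n : ℝ) ≠ 0 := by positivity
  field_simp

end Pool.Agent.RandTransp
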