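import Pool.Agent.Lib.MP_c0051b_pr.Moment

/-! The `ℓ^p` bound at a given time. -/

open Finset Equiv
open scoped RealInnerProductSpace

namespace Pool.Agent.RandTransp

variable {n : ℕ}

lemma add_pow_le' {a b : ℝ} (ha : 0 ≤ a) (hb : 0 ≤ b) {m : ℕ} (hm : 1 ≤ m) : a ^ m + b ^ m ≤ (a + b) ^ m :=
  pow_add_pow_le ha hb (by omega)

theorem even_bound (hn : 2 ≤ n) {t K : ℕ} {L1 L2 : ℝ} (hL1 : 0 ≤ L1) (hL2 : 0 ≤ L2)
    (h1 : ∀ k : ℕ, 1 ≤ k → k ≤ K → k ≤ n →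
      ((((n : ℝ) - k) ^ 2 + (k : ℝ) ^ 2) / (n : ℝ) ^ 2) ^ t * (n : ℝ) ^ k ≤ L1)
    (h2 : ∀ a b : ℕ, 1 ≤ b → b ≤ a → b ≤ n - a → K < n - a →
      (((a : ℝ) ^ 2 + ((n : ℝ) - a) * b) / (n : ℝ) ^ 2) ^ t * (n : ℝ) ^ (n - a - b) ≤ L2)
    {m : ℕ} (hm : 1 ≤ m) {X : ℝ}
    (hX : X = (L1 + 8 ^ n * L2) + 3 * (1 - 2 / (n : ℝ)) ^ t * (1 + (L1 + 8 ^ n * L2))) :
    (∑ σ : Perm (Fin n), ((n.factorial : ℝ) * walk n t σ - 1) ^ (2 * m)) / (n.factorial : ℝ)
      ≤ (2 * X) ^ (2 * m) * Real.exp (4 ^ m) := by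
  have hn' : (2 : ℝ) ≤ n := by exact_mod_cast hn
  set γ : ℝ := (1 - 2 / (n : ℝ)) ^ t with hγdef
  have hγ : 0 ≤ γ := by
    apply pow_nonneg
    rw [sub_nonneg, div_le_one (by linarith)]; exact hn'
  set Λ : ℝ := L1 + 8 ^ n * L2 with hΛ
  have hΛ0 : 0 ≤ Λ := by positivity
  set W := Wf n t K with hW
  have hgood : GoodW n t W := Wf_good n t K
  have hfac : (0 : ℝ) < n.factorial := by positivity
  -- pointwise quantities
  set w : Perm (Fin n) → ℝ := fun σ => (n.factorial : ℝ) * Zw n W σ with hw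
  set T : Perm (Fin n) → ℝ := fun σ => 2 ^ (fixs σ).card with hT
  have hT1 : ∀ σ, 1 ≤ T σ := fun σ => one_le_pow₀ (by norm_num)
  have hw0 : ∀ σ, 0 ≤ w σ := by
    intro σ
    apply mul_nonneg hfac.le
    rw [Zw_apply]
    exact sum_nonneg fun A _ => sum_nonneg fun B _ => mul_nonneg (hgood.1 _ _) (zf_nonneg A B σ)
  have hwle : ∀ σ, w σ ≤ Λ * T σ := fun σ => Zw_bound hL1 hL2 h1 h2 σ
  -- PSD functions
  have hS1 := psd_S1 hn hgood
  have hS2 := psd_S2 hn hgood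
  set κ1 : Perm (Fin n) → ℝ := walk n t - cst n + γ • (sg n * (cst n + Zw n W)) with hκ1
  set κ2 : Perm (Fin n) → ℝ := Zw n W + (2 * γ) • (sg n * (cst n + Zw n W)) with hκ2
  have hdiff : κ2 - κ1 = (cst n + Zw n W) + γ • (sg n * (cst n + Zw n W)) - walk n t := by
    rw [hκ1, hκ2, two_mul, add_smul]
    abel
  have hP2 : IsPSD κ2 := by
    have : κ2 = κ1 + ((cst n + Zw n W) + γ • (sg n * (cst n + Zw n W)) - walk n t) := by
      rw [← hdiff]; abel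
    rw [this]
    exact hS2.add hS1
  have hmono : ∑ σ, (κ1 σ) ^ (2 * m) ≤ ∑ σ, (κ2 σ) ^ (2 * m) :=
    sum_pow_mono hS2 hP2 (by rw [hdiff]; exact hS1) (by omega)
  -- pointwise values
  have hv2 : ∀ σ, (n.factorial : ℝ) * κ2 σ = w σ + 2 * γ * (sg n σ * (1 + w σ)) := by
    intro σ
    simp only [hκ2, hw, Pi.add_apply, Pi.smul_apply, Pi.mul_apply, smul_eq_mul, cst]
    field_simp
  have hv1 : ∀ σ, (n.factorial : ℝ) * walk n t σ - 1 = (n.factorial : ℝ) * κ1 σ - γ * (sg n σ * (1 + w σ)) := by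
    intro σ
    simp only [hκ1, hw, Pi.add_apply, Pi.sub_apply, Pi.smul_apply, Pi.mul_apply, smul_eq_mul, cst]
    field_simp
    ring
  set a : ℝ := Λ + 2 * γ * (1 + Λ) with ha
  set b : ℝ := γ * (1 + Λ) with hb
  have ha0 : 0 ≤ a := by positivity
  have hb0 : 0 ≤ b := by positivity
  have hXab : X = a + b := by rw [hX, ha, hb]; ring
  have hbnd2 : ∀ σ, ((n.factorial : ℝ) * κ2 σ) ^ (2 * m) ≤ a ^ (2 * m) * T σ ^ (2 * m) := by
    intro σ
    rw [hv2, ← mul_pow, pow_mul, pow_mul]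
    apply pow_le_pow_left₀ (sq_nonneg _)
    apply sq_le_sq'
    · have h3 := neg_abs_le (sg n σ * (1 + w σ))
      rw [abs_mul, abs_sg, one_mul, abs_of_nonneg (by linarith [hw0 σ])] at h3
      have h4 := hw0 σ
      have h5 := hwle σ
      have h6 : γ * (-(1 + w σ)) ≤ γ * (sg n σ * (1 + w σ)) := mul_le_mul_of_nonneg_left h3 hγ
      have h7 : γ * (1 + w σ) ≤ γ * ((1 + Λ) * T σ) := by
        apply mul_le_mul_of_nonneg_left _ hγ
        nlinarith [hT1 σ]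
      have h8 : 0 ≤ Λ * T σ := le_trans h4 h5
      rw [ha]
      nlinarith
    · have h3 := le_abs_self (sg n σ * (1 + w σ))
      rw [abs_mul, abs_sg, one_mul, abs_of_nonneg (by linarith [hw0 σ])] at h3
      have h5 := hwle σ
      have h6 : γ * (sg n σ * (1 + w σ)) ≤ γ * (1 + w σ) := mul_le_mul_of_nonneg_left h3 hγ
      have h7 : γ * (1 + w σ) ≤ γ * ((1 + Λ) * T σ) := by
        apply mul_le_mul_of_nonneg_left _ hγ
        nlinarith [hT1 σ]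
      rw [ha]
      nlinarith
  have hbnd1 : ∀ σ, ((n.factorial : ℝ) * walk n t σ - 1) ^ (2 * m)
      ≤ 2 ^ (2 * m) * (((n.factorial : ℝ) * κ1 σ) ^ (2 * m) + b ^ (2 * m) * T σ ^ (2 * m)) := by
    intro σ
    rw [hv1]
    set x := (n.factorial : ℝ) * κ1 σ with hx
    set y := γ * (sg n σ * (1 + w σ)) with hy
    have hyabs : |y| ≤ b * T σ := by
      rw [hy, abs_mul, abs_mul, abs_sg, one_mul, abs_of_nonneg hγ, abs_of_nonneg (by linarith [hw0 σ]), hb,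
        mul_assoc]
      apply mul_le_mul_of_nonneg_left _ hγ
      nlinarith [hT1 σ, hwle σ]
    have e1 : (x - y) ^ (2 * m) = |x - y| ^ (2 * m) := (Even.pow_abs (even_two_mul m) _).symm
    have e2 : x ^ (2 * m) = |x| ^ (2 * m) := (Even.pow_abs (even_two_mul m) _).symm
    rw [e1, e2]
    have h3 : |x - y| ^ (2 * m) ≤ (|x| + |y|) ^ (2 * m) := pow_le_pow_left₀ (abs_nonneg _) (abs_sub x y) _
    have h4 : (|x| + |y|) ^ (2 * m) ≤ 2 ^ (2 * m - 1) * (|x| ^ (2 * m) + |y| ^ (2 * m)) :=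
      add_pow_le (abs_nonneg _) (abs_nonneg _) _
    have h5 : |y| ^ (2 * m) ≤ b ^ (2 * m) * T σ ^ (2 * m) := by
      rw [← mul_pow]; exact pow_le_pow_left₀ (abs_nonneg _) hyabs _
    have h6 : (2 : ℝ) ^ (2 * m - 1) ≤ 2 ^ (2 * m) := pow_le_pow_right₀ (by norm_num) (by omega)
    refine h3.trans (h4.trans ?_)
    apply mul_le_mul h6 (by linarith) (by positivity) (by positivity)
  have hTsum : ∑ σ, T σ ^ (2 * m) ≤ n.factorial * Real.exp (4 ^ m) := by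
    have h3 := moment (n := n) (y := 4 ^ m - 1) (by
      have : (1 : ℝ) ≤ 4 ^ m := one_le_pow₀ (by norm_num)
      linarith)
    have e : ∀ σ : Perm (Fin n), T σ ^ (2 * m) = (1 + (4 ^ m - 1)) ^ (fixs σ).card := by
      intro σ
      rw [hT, add_sub_cancel, ← pow_mul, mul_comm, pow_mul, pow_mul]
      norm_num
    rw [sum_congr rfl fun σ _ => e σ]
    refine h3.trans ?_
    apply mul_le_mul_of_nonneg_left _ hfac.le
    apply Real.exp_le_exp.mpr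
    linarith
  have hk : ∑ σ, ((n.factorial : ℝ) * κ1 σ) ^ (2 * m) ≤ ∑ σ, ((n.factorial : ℝ) * κ2 σ) ^ (2 * m) := by
    simp_rw [mul_pow]
    rw [← mul_sum, ← mul_sum]
    exact mul_le_mul_of_nonneg_left hmono (by positivity)
  rw [div_le_iff₀ hfac]
  calc ∑ σ : Perm (Fin n), ((n.factorial : ℝ) * walk n t σ - 1) ^ (2 * m)
      ≤ ∑ σ, 2 ^ (2 * m) * (((n.factorial : ℝ) * κ1 σ) ^ (2 * m) + b ^ (2 * m) * T σ ^ (2 * m)) :=
        sum_le_sum fun σ _ => hbnd1 σ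
    _ = 2 ^ (2 * m) * (∑ σ, ((n.factorial : ℝ) * κ1 σ) ^ (2 * m) + b ^ (2 * m) * ∑ σ, T σ ^ (2 * m)) := by
        rw [← mul_sum, sum_add_distrib, ← mul_sum]
    _ ≤ 2 ^ (2 * m) * (∑ σ, ((n.factorial : ℝ) * κ2 σ) ^ (2 * m) + b ^ (2 * m) * ∑ σ, T σ ^ (2 * m)) := by
        gcongr
    _ ≤ 2 ^ (2 * m) * (∑ σ, a ^ (2 * m) * T σ ^ (2 * m) + b ^ (2 * m) * ∑ σ, T σ ^ (2 * m)) := by
        gcongr with σ _
        exact hbnd2 σ
    _ = 2 ^ (2 * m) * ((a ^ (2 * m) + b ^ (2 * m)) * ∑ σ, T σ ^ (2 * m)) := by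
        rw [← mul_sum]; ring
    _ ≤ 2 ^ (2 * m) * ((a + b) ^ (2 * m) * (n.factorial * Real.exp (4 ^ m))) := by
        have h3 := add_pow_le' ha0 hb0 (show 1 ≤ 2 * m by omega)
        have h4 : 0 ≤ ∑ σ, T σ ^ (2 * m) := sum_nonneg fun σ _ => by positivity
        gcongr
    _ = (2 * X) ^ (2 * m) * Real.exp (4 ^ m) * n.factorial := by
        rw [hXab, mul_pow]; ring

/-- monotonicity of the distance in `p` -/
theorem lpDist_mono {p q : ℝ} (hp : 0 < p) (hpq : p ≤ q) (n t : ℕ) : lpDist p n t ≤ lpDist q n t := by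
  have hq : 0 < q := hp.trans_le hpq
  have hfac : (0 : ℝ) < n.factorial := by positivity
  unfold lpDist
  set x : Perm (Fin n) → ℝ := fun σ => |(n.factorial : ℝ) * walk n t σ - 1| with hx
  have hx0 : ∀ σ, 0 ≤ x σ := fun σ => abs_nonneg _
  have hJ := Real.rpow_arith_mean_le_arith_mean_rpow (univ : Finset (Perm (Fin n)))
    (fun _ => (n.factorial : ℝ)⁻¹) (fun σ => x σ ^ p) (fun _ _ => by positivity)
    (by rw [sum_const, card_univ, Fintype.card_perm, Fintype.card_fin, nsmul_eq_mul,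
          mul_inv_cancel₀ hfac.ne'])
    (fun σ _ => Real.rpow_nonneg (hx0 σ) p) (p := q / p) ((one_le_div hp).mpr hpq)
  rw [← mul_sum, ← mul_sum] at hJ
  have e1 : ∀ σ, (x σ ^ p) ^ (q / p) = x σ ^ q := by
    intro σ
    rw [← Real.rpow_mul (hx0 σ), mul_div_cancel₀ _ hp.ne']
  simp_rw [e1] at hJ
  rw [inv_mul_eq_div, inv_mul_eq_div] at hJ
  have hA0 : 0 ≤ (∑ σ, x σ ^ p) / (n.factorial : ℝ) :=
    div_nonneg (sum_nonneg fun σ _ => Real.rpow_nonneg (hx0 σ) p) hfac.le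
  have h1 := Real.rpow_le_rpow (Real.rpow_nonneg hA0 _) hJ (show (0 : ℝ) ≤ 1 / q by positivity)
  rw [← Real.rpow_mul hA0] at h1
  have e2 : q / p * (1 / q) = 1 / p := by field_simp
  rwa [e2] at h1

lemma lpDist_nonneg (p : ℝ) (n t : ℕ) : 0 ≤ lpDist p n t := by
  unfold lpDist
  apply Real.rpow_nonneg
  apply div_nonneg _ (by positivity)
  exact sum_nonneg fun σ _ => Real.rpow_nonneg (abs_nonneg _) _

theorem lpDist_even_le {m : ℕ} (hm : 1 ≤ m) {n t : ℕ} {C X : ℝ} (hX : 0 ≤ X)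
    (h : (∑ σ : Perm (Fin n), ((n.factorial : ℝ) * walk n t σ - 1) ^ (2 * m)) / (n.factorial : ℝ)
      ≤ X ^ (2 * m) * C) (hC : 0 ≤ C) :
    lpDist ((2 * m : ℕ) : ℝ) n t ≤ X * C ^ (1 / ((2 * m : ℕ) : ℝ)) := by
  unfold lpDist
  have e : ∀ σ : Perm (Fin n), |(n.factorial : ℝ) * walk n t σ - 1| ^ (((2 * m : ℕ) : ℝ))
      = ((n.factorial : ℝ) * walk n t σ - 1) ^ (2 * m) := by
    intro σ
    rw [Real.rpow_natCast, Even.pow_abs (even_two_mul m)]
  simp_rw [e]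
  have h0 : 0 ≤ (∑ σ : Perm (Fin n), ((n.factorial : ℝ) * walk n t σ - 1) ^ (2 * m)) / (n.factorial : ℝ) := by
    apply div_nonneg _ (by positivity)
    exact sum_nonneg fun σ _ => Even.pow_nonneg (even_two_mul m) _
  have h1 := Real.rpow_le_rpow h0 h (show (0 : ℝ) ≤ 1 / ((2 * m : ℕ) : ℝ) by positivity)
  refine h1.trans (le_of_eq ?_)
  rw [Real.mul_rpow (by positivity) hC]
  congr 1
  rw [one_div, ← Real.rpow_natCast X (2 * m), ← Real.rpow_mul hX,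
    mul_inv_cancel₀ (by have : (1:ℝ) ≤ m := by exact_mod_cast hm
                        push_cast; positivity), Real.rpow_one]

end Pool.Agent.RandTransp
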