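import Mathlib

/-! Definitions for the random transposition walk and its `ℓ^p` cutoff. -/

open Finset Equiv

namespace Pool.Agent.RandTransp

/-- Transition probability of one step: `i` and `j` are chosen independently and uniformly in
`Fin n`, and the current permutation `τ` becomes `τ * swap i j` (which is `τ` when `i = j`). -/
noncomputable def stepProb (n : ℕ) (τ σ : Perm (Fin n)) : ℝ :=
  ((univ.filter fun p : Fin n × Fin n => τ * swap p.1 p.2 = σ).card : ℝ) / (n : ℝ) ^ 2

/-- `walk n t σ` is the probability that the random transposition walk on the permutations of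
`Fin n` started at the identity is at `σ` after `t` steps. -/
noncomputable def walk (n : ℕ) : ℕ → Perm (Fin n) → ℝ
  | 0 => fun σ => if σ = 1 then 1 else 0
  | t + 1 => fun σ => ∑ τ : Perm (Fin n), walk n t τ * stepProb n τ σ

/-- The `ℓ^p` distance to stationarity `d_p(n,t)`: the density of `walk n t` with respect to the
uniform distribution is `n! * walk n t σ`. -/
noncomputable def lpDist (p : ℝ) (n t : ℕ) : ℝ :=
  ((∑ σ : Perm (Fin n), |(n.factorial : ℝ) * walk n t σ - 1| ^ p) / (n.factorial : ℝ)) ^ (1 / p)

/-- `ℓ^p` cutoff of the random transposition walks at times `tn n` : for each `ε > 0` the distance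
at time `⌊(1+ε) tn⌋` tends to `0`, and the liminf of the distance at time `⌊(1-ε) tn⌋`, taken in
the extended reals, is positive (a negative time is read as time `0`). -/
def HasLpCutoff (p : ℝ) (tn : ℕ → ℝ) : Prop :=
  ∀ ε : ℝ, 0 < ε →
    Filter.Tendsto (fun n : ℕ => lpDist p n ⌊(1 + ε) * tn n⌋₊) Filter.atTop (nhds 0) ∧
    0 < Filter.liminf (fun n : ℕ => ((lpDist p n ⌊(1 - ε) * tn n⌋₊ : ℝ) : EReal)) Filter.atTop

end Pool.Agent.RandTransp
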