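import Pool.Agent.Lib.MP_c0051b_pr.Bound

/-! The lower bound from the number of fixed points. -/

open Finset Equiv
open scoped RealInnerProductSpace

namespace Pool.Agent.RandTransp

variable {n : ℕ}

lemma swap_count (x y : Fin n) :
    (∑ i : Fin n, ∑ j : Fin n, if swap i j x = y then (1 : ℝ) else 0)
      = if x = y then ((n : ℝ) - 1) ^ 2 + 1 else 2 := by
  have hcard : ((univ.erase x : Finset (Fin n)).card : ℝ) = n - 1 := by
    rw [card_erase_of_mem (mem_univ x), card_univ, Fintype.card_fin, Nat.cast_sub (by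
      have := x.2; omega)]
    simp
  have h1 : ∀ i : Fin n, i ≠ x → (∑ j : Fin n, if swap i j x = y then (1 : ℝ) else 0)
      = (if i = y then (1 : ℝ) else 0) + ((n : ℝ) - 1) * (if x = y then 1 else 0) := by
    intro i hi
    rw [← Finset.add_sum_erase univ _ (mem_univ x), swap_apply_right]
    congr 1
    have h2 : ∀ j ∈ univ.erase x, (if swap i j x = y then (1 : ℝ) else 0) = if x = y then 1 else 0 := by
      intro j hj
      rw [mem_erase] at hj
      rw [swap_apply_of_ne_of_ne hi.symm hj.1.symm]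
    rw [sum_congr rfl h2, sum_const, nsmul_eq_mul, hcard]
  have h0 : (∑ j : Fin n, if swap x j x = y then (1 : ℝ) else 0) = 1 := by
    simp only [swap_apply_left]
    rw [Finset.sum_ite_eq' univ y (fun _ => (1 : ℝ))]
    simp
  rw [← Finset.add_sum_erase univ _ (mem_univ x), h0,
    sum_congr rfl (fun i hi => h1 i (mem_erase.mp hi).1), sum_add_distrib, sum_const, nsmul_eq_mul, hcard]
  by_cases hxy : x = y
  · subst hxy
    have h3 : ∑ i ∈ univ.erase x, (if i = x then (1 : ℝ) else 0) = 0 := by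
      apply sum_eq_zero
      intro i hi
      rw [if_neg (mem_erase.mp hi).1]
    rw [h3, if_pos rfl, if_pos rfl]
    ring
  · have h3 : ∑ i ∈ univ.erase x, (if i = y then (1 : ℝ) else 0) = 1 := by
      rw [Finset.sum_ite_eq' (univ.erase x) y (fun _ => (1 : ℝ)), if_pos (mem_erase.mpr ⟨Ne.symm hxy, mem_univ y⟩)]
    rw [h3, if_neg hxy, if_neg hxy]
    ring

/-- number of fixed points, as a real -/
def fx (σ : Perm (Fin n)) : ℝ := (fixs σ).card

lemma fx_eq (σ : Perm (Fin n)) : fx σ = ∑ x : Fin n, if σ x = x then (1 : ℝ) else 0 := by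
  unfold fx fixs
  rw [Finset.sum_boole]

lemma fx_step (hn : 0 < n) (τ : Perm (Fin n)) :
    ∑ σ, stepProb n τ σ * (fx σ - 1) = (1 - 2 / (n : ℝ)) * (fx τ - 1) := by
  have hn' : (n : ℝ) ≠ 0 := by positivity
  have h1 : ∑ σ, stepProb n τ σ * (fx σ - 1)
      = (∑ p : Fin n × Fin n, (fx (τ * swap p.1 p.2) - 1)) / (n : ℝ) ^ 2 := by
    rw [← Finset.sum_fiberwise (s := univ) (g := fun p : Fin n × Fin n => τ * swap p.1 p.2), sum_div]
    refine sum_congr rfl fun σ _ => ?_
    unfold stepProb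
    rw [div_mul_eq_mul_div]
    congr 1
    rw [← nsmul_eq_mul, ← sum_const]
    refine sum_congr rfl fun p hp => ?_
    rw [(mem_filter.mp hp).2]
  have h2 : ∑ p : Fin n × Fin n, fx (τ * swap p.1 p.2) = fx τ * ((n : ℝ) ^ 2 - 2 * n) + 2 * n := by
    simp_rw [fx_eq]
    rw [Finset.sum_comm]
    have h3 : ∀ x : Fin n, (∑ p : Fin n × Fin n, if (τ * swap p.1 p.2) x = x then (1 : ℝ) else 0)
        = 2 + ((n : ℝ) ^ 2 - 2 * n) * (if τ x = x then 1 else 0) := by
      intro x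
      rw [Fintype.sum_prod_type]
      have h4 : ∀ i j : Fin n, (if (τ * swap i j) x = x then (1 : ℝ) else 0) = if swap i j x = τ⁻¹ x then 1 else 0 := by
        intro i j
        have : (τ * swap i j) x = x ↔ swap i j x = τ⁻¹ x := by
          rw [Perm.mul_apply, Perm.eq_inv_iff_eq]
        simp only [this]
      simp_rw [h4]
      rw [swap_count]
      have h5 : x = τ⁻¹ x ↔ τ x = x := by rw [Perm.eq_inv_iff_eq]
      by_cases h : τ x = x
      · rw [if_pos h, if_pos (h5.mpr h)]; ring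
      · rw [if_neg h, if_neg (fun h' => h (h5.mp h'))]; ring
    rw [sum_congr rfl fun x _ => h3 x, sum_add_distrib, ← mul_sum]
    simp only [sum_const, card_univ, Fintype.card_fin, nsmul_eq_mul]
    ring
  rw [h1, sum_sub_distrib, h2]
  simp only [sum_const, card_univ, Fintype.card_prod, Fintype.card_fin, nsmul_eq_mul, mul_one]
  push_cast
  field_simp
  ring

lemma fx_walk (hn : 0 < n) (t : ℕ) :
    ∑ σ, walk n t σ * (fx σ - 1) = ((n : ℝ) - 1) * (1 - 2 / (n : ℝ)) ^ t := by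
  induction t with
  | zero =>
    simp only [walk, ite_mul, one_mul, zero_mul, pow_zero, mul_one]
    rw [Finset.sum_ite_eq' univ (1 : Perm (Fin n)) (fun σ => fx σ - 1), if_pos (mem_univ _)]
    unfold fx fixs
    simp
  | succ t ih =>
    simp only [walk]
    simp_rw [sum_mul]
    rw [Finset.sum_comm]
    have h1 : ∀ τ : Perm (Fin n), ∑ σ, walk n t τ * stepProb n τ σ * (fx σ - 1)
        = (1 - 2 / (n : ℝ)) * (walk n t τ * (fx τ - 1)) := by
      intro τ
      simp_rw [mul_assoc]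
      rw [← mul_sum, fx_step hn]
      ring
    rw [sum_congr rfl fun τ _ => h1 τ, ← mul_sum, ih]
    ring

lemma fx_sum (hn : 0 < n) : ∑ σ : Perm (Fin n), (fx σ - 1) = 0 := by
  rw [sum_sub_distrib]
  simp_rw [fx_eq]
  rw [Finset.sum_comm]
  have h1 : ∀ x : Fin n, (∑ σ : Perm (Fin n), if σ x = x then (1 : ℝ) else 0) = (n - 1).factorial := by
    intro x
    rw [Finset.sum_boole]
    have h2 := card_fixing ({x} : Finset (Fin n))
    rw [card_singleton] at h2
    rw [← h2]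
    congr 2
    ext σ
    simp only [mem_filter, mem_univ, true_and, singleton_subset_iff, mem_fixs]
  rw [sum_congr rfl fun x _ => h1 x]
  simp only [sum_const, card_univ, Fintype.card_fin, nsmul_eq_mul, Fintype.card_perm, mul_one]
  have h3 : n * (n - 1).factorial = n.factorial := Nat.mul_factorial_pred (by omega)
  have h4 : (n : ℝ) * ((n - 1).factorial : ℝ) = n.factorial := by exact_mod_cast h3
  rw [h4, sub_self]

lemma sq_le_four_pow (k : ℕ) : ((k : ℝ) - 1) ^ 2 ≤ (1 + 3) ^ k := by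
  have h : (k : ℝ) < 2 ^ k := by exact_mod_cast Nat.lt_two_pow_self
  have h0 : (0 : ℝ) ≤ k := Nat.cast_nonneg k
  have h1 : (1 : ℝ) ≤ 2 ^ k := one_le_pow₀ (by norm_num)
  have h2 : ((1 : ℝ) + 3) ^ k = (2 ^ k) ^ 2 := by rw [← pow_mul, mul_comm, pow_mul]; norm_num
  rw [h2]
  apply sq_le_sq'
  · linarith
  · linarith

theorem lower_two (hn : 0 < n) (t : ℕ) :
    (((n : ℝ) - 1) * (1 - 2 / (n : ℝ)) ^ t) ^ 2
      ≤ (∑ σ : Perm (Fin n), ((n.factorial : ℝ) * walk n t σ - 1) ^ 2) / (n.factorial : ℝ) * Real.exp 3 := by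
  have hfac : (0 : ℝ) < n.factorial := by positivity
  have h1 : ∑ σ : Perm (Fin n), ((n.factorial : ℝ) * walk n t σ - 1) * (fx σ - 1)
      = n.factorial * (((n : ℝ) - 1) * (1 - 2 / (n : ℝ)) ^ t) := by
    rw [← fx_walk hn t, mul_sum]
    have : ∀ σ : Perm (Fin n), ((n.factorial : ℝ) * walk n t σ - 1) * (fx σ - 1)
        = (n.factorial : ℝ) * (walk n t σ * (fx σ - 1)) - (fx σ - 1) := by intro σ; ring
    rw [sum_congr rfl fun σ _ => this σ, sum_sub_distrib, fx_sum hn, sub_zero]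
  have h2 := Finset.sum_mul_sq_le_sq_mul_sq (univ : Finset (Perm (Fin n)))
    (fun σ => (n.factorial : ℝ) * walk n t σ - 1) (fun σ => fx σ - 1)
  rw [h1] at h2
  have h3 : ∑ σ : Perm (Fin n), (fx σ - 1) ^ 2 ≤ n.factorial * Real.exp 3 := by
    refine le_trans ?_ (moment (n := n) (y := 3) (by norm_num))
    exact sum_le_sum fun σ _ => sq_le_four_pow _
  have h4 : 0 ≤ ∑ σ : Perm (Fin n), ((n.factorial : ℝ) * walk n t σ - 1) ^ 2 := sum_nonneg fun σ _ => sq_nonneg _
  have h5 : (n.factorial * (((n : ℝ) - 1) * (1 - 2 / (n : ℝ)) ^ t)) ^ 2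
      ≤ (∑ σ : Perm (Fin n), ((n.factorial : ℝ) * walk n t σ - 1) ^ 2) * (n.factorial * Real.exp 3) :=
    h2.trans (mul_le_mul_of_nonneg_left h3 h4)
  rw [mul_pow] at h5
  rw [div_mul_eq_mul_div, le_div_iff₀ hfac]
  have h6 : (n.factorial : ℝ) * ((((n : ℝ) - 1) * (1 - 2 / (n : ℝ)) ^ t) ^ 2 * n.factorial)
      ≤ (n.factorial : ℝ) * ((∑ σ : Perm (Fin n), ((n.factorial : ℝ) * walk n t σ - 1) ^ 2) * Real.exp 3) := by
    calc _ = (n.factorial : ℝ) ^ 2 * (((n : ℝ) - 1) * (1 - 2 / (n : ℝ)) ^ t) ^ 2 := by ring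
      _ ≤ _ := h5
      _ = _ := by ring
  exact le_of_mul_le_mul_left h6 hfac

theorem lpDist_lower {p : ℝ} (hp : 2 ≤ p) (hn : 2 ≤ n) (t : ℕ) :
    ((n : ℝ) - 1) * (1 - 2 / (n : ℝ)) ^ t * Real.exp (-3 / 2) ≤ lpDist p n t := by
  refine le_trans ?_ (lpDist_mono (by norm_num : (0 : ℝ) < 2) hp n t)
  have hn' : (2 : ℝ) ≤ n := by exact_mod_cast hn
  have hγ : 0 ≤ 1 - 2 / (n : ℝ) := by
    rw [sub_nonneg, div_le_one (by linarith)]; exact hn'
  have h1 := lower_two (n := n) (by omega) t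
  have h0 : 0 ≤ ((n : ℝ) - 1) * (1 - 2 / (n : ℝ)) ^ t := by
    apply mul_nonneg (by linarith) (pow_nonneg hγ t)
  unfold lpDist
  have e : ∀ σ : Perm (Fin n), |(n.factorial : ℝ) * walk n t σ - 1| ^ (2 : ℝ)
      = ((n.factorial : ℝ) * walk n t σ - 1) ^ 2 := by
    intro σ
    rw [Real.rpow_two, sq_abs]
  simp_rw [e]
  rw [← Real.sqrt_eq_rpow]
  apply Real.le_sqrt_of_sq_le
  rw [mul_pow]
  have h3 : Real.exp (-3 / 2) ^ 2 = (Real.exp 3)⁻¹ := by
    rw [← Real.exp_nat_mul, ← Real.exp_neg]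
    congr 1
    norm_num
  rw [h3, ← div_eq_mul_inv, div_le_iff₀ (Real.exp_pos _)]
  exact h1

end Pool.Agent.RandTransp
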