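import Pool.Agent.Lib.MP_c0051b_pr.Psd

/-! Exponential moments of the number of fixed points and the pointwise bound on the comparison
function. -/

open Finset Equiv
open scoped RealInnerProductSpace

namespace Pool.Agent.RandTransp

variable {n : ℕ}

/-- the fixed points -/
def fixs (σ : Perm (Fin n)) : Finset (Fin n) := univ.filter fun i => σ i = i

lemma mem_fixs {σ : Perm (Fin n)} {i : Fin n} : i ∈ fixs σ ↔ σ i = i := by simp [fixs]

lemma card_fixing (S : Finset (Fin n)) :
    ((univ : Finset (Perm (Fin n))).filter fun σ => S ⊆ fixs σ).card = (n - S.card).factorial := by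
  have h1 : Fintype.card (Perm {x : Fin n // x ∉ S}) = (n - S.card).factorial := by
    rw [Fintype.card_perm, Fintype.card_subtype_compl, Fintype.card_fin, Fintype.card_coe]
  rw [← h1]
  have h2 : Fintype.card (Perm {x : Fin n // x ∉ S})
      = Fintype.card {f : Perm (Fin n) // ∀ a, ¬ (a ∉ S) → f a = a} :=
    Fintype.card_congr (Equiv.Perm.subtypeEquivSubtypePerm (fun x => x ∉ S))
  rw [h2, Fintype.card_subtype]
  congr 1
  ext σ
  simp only [mem_filter, mem_univ, true_and, not_not]
  constructor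
  · intro h a ha; exact mem_fixs.mp (h ha)
  · intro h a ha; exact mem_fixs.mpr (h a ha)

theorem moment {y : ℝ} (hy : 0 ≤ y) :
    ∑ σ : Perm (Fin n), (1 + y) ^ (fixs σ).card ≤ n.factorial * Real.exp y := by
  have h1 : ∀ σ : Perm (Fin n), (1 + y) ^ (fixs σ).card
      = ∑ S : Finset (Fin n), if S ⊆ fixs σ then y ^ S.card else 0 := by
    intro σ
    have h := Finset.sum_pow_mul_eq_add_pow y 1 (fixs σ)
    rw [add_comm, ← h, ← Finset.sum_filter]
    refine Finset.sum_congr ?_ fun S _ => by rw [one_pow, mul_one]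
    ext S
    simp
  rw [sum_congr rfl fun σ _ => h1 σ, Finset.sum_comm]
  have h2 : ∀ S : Finset (Fin n), (∑ σ : Perm (Fin n), if S ⊆ fixs σ then y ^ S.card else 0)
      = ((n - S.card).factorial : ℝ) * y ^ S.card := by
    intro S
    rw [← Finset.sum_filter, sum_const, card_fixing, nsmul_eq_mul]
  rw [sum_congr rfl fun S _ => h2 S]
  have h3 := Finset.sum_powerset_apply_card (x := (univ : Finset (Fin n)))
    (fun j => ((n - j).factorial : ℝ) * y ^ j)
  rw [powerset_univ, card_univ, Fintype.card_fin] at h3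
  rw [h3]
  have h4 : ∀ j ∈ range (n + 1), n.choose j • (((n - j).factorial : ℝ) * y ^ j)
      = n.factorial * (y ^ j / j.factorial) := by
    intro j hj
    rw [mem_range] at hj
    have h5 := Nat.choose_mul_factorial_mul_factorial (show j ≤ n by omega)
    have h6 : (n.choose j : ℝ) * j.factorial * (n - j).factorial = n.factorial := by exact_mod_cast h5
    rw [nsmul_eq_mul, ← h6]
    have : (j.factorial : ℝ) ≠ 0 := by positivity
    field_simp
  rw [sum_congr rfl h4, ← mul_sum]
  apply mul_le_mul_of_nonneg_left _ (by positivity)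
  exact Real.sum_le_exp_of_nonneg hy _

/-- the weights -/
noncomputable def Wf (n t K : ℕ) (a b : ℕ) : ℝ :=
  (if b = 0 ∧ 1 ≤ n - a ∧ n - a ≤ K then (((a : ℝ) ^ 2 + ((n : ℝ) - a) ^ 2) / (n : ℝ) ^ 2) ^ t else 0) +
  (if K < n - a ∧ 1 ≤ b ∧ b ≤ a ∧ b ≤ n - a then
    (((a : ℝ) ^ 2 + ((n : ℝ) - a) * b) / (n : ℝ) ^ 2) ^ t else 0)

lemma Wf_good (n t K : ℕ) : GoodW n t (Wf n t K) := by
  constructor
  · intro a b
    unfold Wf
    apply add_nonneg
    · split_ifs <;> positivity
    · split_ifs with h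
      · have h1 : (0 : ℝ) ≤ n - a := by
          have : a ≤ n := by omega
          rw [sub_nonneg]; exact_mod_cast this
        positivity
      · exact le_rfl
  · intro a b ha hb hba hbn
    have h1 : (0 : ℝ) ≤ n - a := by
      rw [sub_nonneg]; exact_mod_cast ha.le
    by_cases hK : K < n - a
    · left
      unfold Wf
      rw [if_neg (by omega), if_pos ⟨hK, hb, hba, hbn⟩, zero_add]
    · right
      unfold Wf
      rw [if_pos ⟨rfl, by omega, by omega⟩, if_neg (by omega), add_zero]
      have h2 : (b : ℝ) ≤ n - a := by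
        rw [← Nat.cast_sub ha.le]; exact_mod_cast hbn
      apply pow_le_pow_left₀ (by positivity)
      apply div_le_div_of_nonneg_right _ (by positivity)
      nlinarith

lemma fact_bound1 {n a : ℕ} (ha : a ≤ n) : (n.factorial : ℝ) * ((a.factorial : ℝ))⁻¹ ≤ (n : ℝ) ^ (n - a) := by
  rw [mul_inv_le_iff₀ (by positivity)]
  have h1 := Nat.factorial_mul_descFactorial (show n - a ≤ n by omega)
  rw [show n - (n - a) = a by omega] at h1
  have h2 := Nat.descFactorial_le_pow n (n - a)
  have h3 : n.factorial ≤ n ^ (n - a) * a.factorial := by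
    rw [← h1, mul_comm]
    exact Nat.mul_le_mul_right _ h2
  exact_mod_cast h3

lemma fact_bound2 {n a b : ℕ} (hab : a + b ≤ n) :
    (n.factorial : ℝ) * (((a.factorial * b.factorial : ℕ) : ℝ))⁻¹ ≤ 2 ^ n * (n : ℝ) ^ (n - a - b) := by
  rw [mul_inv_le_iff₀ (by positivity)]
  have h0 := Nat.choose_mul_factorial_mul_factorial (show a ≤ n by omega)
  have h1 := Nat.factorial_mul_descFactorial (show n - a - b ≤ n - a by omega)
  rw [show n - a - (n - a - b) = b by omega] at h1
  have h2 := Nat.descFactorial_le_pow (n - a) (n - a - b)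
  have h3 : (n - a) ^ (n - a - b) ≤ n ^ (n - a - b) := Nat.pow_le_pow_left (by omega) _
  have h4 : n.choose a ≤ 2 ^ n := Nat.choose_le_two_pow n a
  have h5 : n.factorial ≤ 2 ^ n * n ^ (n - a - b) * (a.factorial * b.factorial) := by
    rw [← h0, ← h1]
    calc n.choose a * a.factorial * (b.factorial * (n - a).descFactorial (n - a - b))
        ≤ 2 ^ n * a.factorial * (b.factorial * n ^ (n - a - b)) := by gcongr; exact h2.trans h3
      _ = _ := by ring
  exact_mod_cast h5

theorem Zw_bound {t K : ℕ} {L1 L2 : ℝ} (hL1 : 0 ≤ L1) (hL2 : 0 ≤ L2)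
    (h1 : ∀ k : ℕ, 1 ≤ k → k ≤ K → k ≤ n →
      ((((n : ℝ) - k) ^ 2 + (k : ℝ) ^ 2) / (n : ℝ) ^ 2) ^ t * (n : ℝ) ^ k ≤ L1)
    (h2 : ∀ a b : ℕ, 1 ≤ b → b ≤ a → b ≤ n - a → K < n - a →
      (((a : ℝ) ^ 2 + ((n : ℝ) - a) * b) / (n : ℝ) ^ 2) ^ t * (n : ℝ) ^ (n - a - b) ≤ L2)
    (σ : Perm (Fin n)) :
    (n.factorial : ℝ) * Zw n (Wf n t K) σ ≤ (L1 + 8 ^ n * L2) * 2 ^ (fixs σ).card := by
  classical
  rw [Zw_apply, mul_sum]
  have hterm : ∀ A B : Finset (Fin n), (n.factorial : ℝ) * (Wf n t K A.card B.card * zf A B σ)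
      ≤ (if B = ∅ ∧ Aᶜ ⊆ fixs σ then L1 else 0) + 2 ^ n * L2 := by
    intro A B
    have hAn : A.card ≤ n := by simpa using Finset.card_le_univ A
    unfold Wf
    rw [add_mul, mul_add]
    apply add_le_add
    · by_cases hcond : B.card = 0 ∧ 1 ≤ n - A.card ∧ n - A.card ≤ K
      · rw [if_pos hcond]
        have hB : B = ∅ := Finset.card_eq_zero.mp hcond.1
        by_cases hσ : σ ∈ HAB A B
        · have hfix : Aᶜ ⊆ fixs σ := by
            intro i hi
            rw [mem_compl] at hi
            subst hB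
            exact mem_fixs.mpr (HAB_empty_fix hσ i hi)
          rw [if_pos ⟨hB, hfix⟩]
          unfold zf ind
          rw [Pi.smul_apply, if_pos hσ, smul_eq_mul, mul_one, hcond.1, Nat.factorial_zero, mul_one]
          have h3 := h1 (n - A.card) hcond.2.1 hcond.2.2 (by omega)
          have h4 : ((n - A.card : ℕ) : ℝ) = n - A.card := Nat.cast_sub hAn
          rw [h4, show (n : ℝ) - (n - A.card) = A.card by ring] at h3
          refine le_trans ?_ h3
          have h5 := fact_bound1 hAn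
          calc (n.factorial : ℝ) * ((((A.card : ℝ) ^ 2 + ((n : ℝ) - A.card) ^ 2) / (n : ℝ) ^ 2) ^ t
                * ((A.card.factorial : ℝ))⁻¹)
              = (((A.card : ℝ) ^ 2 + ((n : ℝ) - A.card) ^ 2) / (n : ℝ) ^ 2) ^ t
                * ((n.factorial : ℝ) * ((A.card.factorial : ℝ))⁻¹) := by ring
            _ ≤ _ := mul_le_mul_of_nonneg_left h5 (by positivity)
        · have : zf A B σ = 0 := by
            unfold zf ind
            rw [Pi.smul_apply, if_neg hσ, smul_zero]
          rw [this, mul_zero, mul_zero]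
          split_ifs
          · exact hL1
          · exact le_rfl
      · rw [if_neg hcond, zero_mul, mul_zero]
        split_ifs
        · exact hL1
        · exact le_rfl
    · by_cases hcond : K < n - A.card ∧ 1 ≤ B.card ∧ B.card ≤ A.card ∧ B.card ≤ n - A.card
      · rw [if_pos hcond]
        have h3 := h2 A.card B.card hcond.2.1 hcond.2.2.1 hcond.2.2.2 hcond.1
        have h4 := fact_bound2 (show A.card + B.card ≤ n by omega)
        have h5 : zf A B σ ≤ (((A.card.factorial * B.card.factorial : ℕ) : ℝ))⁻¹ := by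
          unfold zf ind
          rw [Pi.smul_apply, smul_eq_mul]
          split_ifs
          · rw [mul_one]
          · rw [mul_zero]; positivity
        have h0 : (0 : ℝ) ≤ (n : ℝ) - A.card := by
          rw [sub_nonneg]; exact_mod_cast hAn
        have hc : (0 : ℝ) ≤ (((A.card : ℝ) ^ 2 + ((n : ℝ) - A.card) * B.card) / (n : ℝ) ^ 2) ^ t := by positivity
        calc (n.factorial : ℝ) * ((((A.card : ℝ) ^ 2 + ((n : ℝ) - A.card) * B.card) / (n : ℝ) ^ 2) ^ t * zf A B σ)
            ≤ (n.factorial : ℝ) * ((((A.card : ℝ) ^ 2 + ((n : ℝ) - A.card) * B.card) / (n : ℝ) ^ 2) ^ t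
              * (((A.card.factorial * B.card.factorial : ℕ) : ℝ))⁻¹) := by gcongr
          _ = (((A.card : ℝ) ^ 2 + ((n : ℝ) - A.card) * B.card) / (n : ℝ) ^ 2) ^ t *
              ((n.factorial : ℝ) * (((A.card.factorial * B.card.factorial : ℕ) : ℝ))⁻¹) := by ring
          _ ≤ (((A.card : ℝ) ^ 2 + ((n : ℝ) - A.card) * B.card) / (n : ℝ) ^ 2) ^ t *
              (2 ^ n * (n : ℝ) ^ (n - A.card - B.card)) := mul_le_mul_of_nonneg_left h4 hc
          _ = 2 ^ n * ((((A.card : ℝ) ^ 2 + ((n : ℝ) - A.card) * B.card) / (n : ℝ) ^ 2) ^ t *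
              (n : ℝ) ^ (n - A.card - B.card)) := by ring
          _ ≤ 2 ^ n * L2 := mul_le_mul_of_nonneg_left h3 (by positivity)
      · rw [if_neg hcond, zero_mul, mul_zero]
        positivity
  have hsum : ∑ A : Finset (Fin n), (n.factorial : ℝ) * ∑ B : Finset (Fin n), Wf n t K A.card B.card * zf A B σ
      ≤ ∑ A : Finset (Fin n), ∑ B : Finset (Fin n), ((if B = ∅ ∧ Aᶜ ⊆ fixs σ then L1 else 0) + 2 ^ n * L2) := by
    refine sum_le_sum fun A _ => ?_
    rw [mul_sum]
    exact sum_le_sum fun B _ => hterm A B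
  refine hsum.trans ?_
  simp_rw [sum_add_distrib]
  have hA : ∑ A : Finset (Fin n), ∑ B : Finset (Fin n), (if B = ∅ ∧ Aᶜ ⊆ fixs σ then L1 else 0)
      = L1 * 2 ^ (fixs σ).card := by
    have e1 : ∀ A : Finset (Fin n), ∑ B : Finset (Fin n), (if B = ∅ ∧ Aᶜ ⊆ fixs σ then L1 else 0)
        = if Aᶜ ⊆ fixs σ then L1 else 0 := by
      intro A
      simp_rw [ite_and]
      rw [Finset.sum_ite_eq' univ (∅ : Finset (Fin n)) (fun _ => if Aᶜ ⊆ fixs σ then L1 else 0), if_pos (mem_univ _)]
    rw [sum_congr rfl fun A _ => e1 A]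
    have e2 : ∑ A : Finset (Fin n), (if Aᶜ ⊆ fixs σ then L1 else 0) = ∑ A : Finset (Fin n), (if A ⊆ fixs σ then L1 else 0) := by
      refine Fintype.sum_equiv (compl_involutive.toPerm _) _ _ fun A => rfl
    rw [e2, ← Finset.sum_filter, sum_const, nsmul_eq_mul]
    have e3 : (univ.filter fun A : Finset (Fin n) => A ⊆ fixs σ) = (fixs σ).powerset := by ext A; simp
    rw [e3, card_powerset]
    push_cast
    ring
  have hB : ∑ A : Finset (Fin n), ∑ B : Finset (Fin n), (2 : ℝ) ^ n * L2 = 8 ^ n * L2 := by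
    simp only [sum_const, card_univ, Fintype.card_finset, Fintype.card_fin, nsmul_eq_mul]
    push_cast
    have : (8 : ℝ) ^ n = 2 ^ n * 2 ^ n * 2 ^ n := by rw [← mul_pow, ← mul_pow]; norm_num
    rw [this]; ring
  rw [hA, hB, add_mul]
  have : (1 : ℝ) ≤ 2 ^ (fixs σ).card := one_le_pow₀ (by norm_num)
  have h8 : 0 ≤ (8 : ℝ) ^ n * L2 := by positivity
  nlinarith

end Pool.Agent.RandTransp
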