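import Pool.Agent.Lib.MP_c0051b_pr.Rep

/-! The left regular representation, convolution operators, positive semidefinite class functions. -/

open Finset Equiv
open scoped RealInnerProductSpace

namespace Pool.Agent.RandTransp

/-- the function space -/
abbrev E (n : ℕ) := EuclideanSpace ℝ (Perm (Fin n))

variable {n : ℕ}

/-- the left regular representation, as linear isometries -/
noncomputable def regI (g : Perm (Fin n)) : E n ≃ₗᵢ[ℝ] E n :=
  LinearIsometryEquiv.piLpCongrLeft 2 ℝ ℝ (Equiv.mulLeft g)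

lemma regI_apply (g : Perm (Fin n)) (f : E n) (σ : Perm (Fin n)) : regI g f σ = f (g⁻¹ * σ) := by
  unfold regI
  rw [LinearIsometryEquiv.piLpCongrLeft_apply]
  rfl

/-- the left regular representation -/
noncomputable def reg : Perm (Fin n) →* (E n →ₗ[ℝ] E n) where
  toFun g := (regI g).toLinearEquiv.toLinearMap
  map_one' := by
    ext f σ
    change regI 1 _ _ = _
    rw [regI_apply]; simp
  map_mul' g h := by
    refine LinearMap.ext fun f => ?_
    ext σ
    change regI (g * h) f σ = regI g (regI h f) σ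
    rw [regI_apply, regI_apply, regI_apply, mul_inv_rev, mul_assoc]

lemma reg_apply (g : Perm (Fin n)) (f : E n) (σ : Perm (Fin n)) : reg g f σ = f (g⁻¹ * σ) :=
  regI_apply g f σ

lemma reg_inner (g : Perm (Fin n)) (f h : E n) : ⟪reg g f, reg g h⟫ = ⟪f, h⟫ :=
  (regI g).inner_map_map f h

lemma reg_inner' (g : Perm (Fin n)) (f h : E n) : ⟪reg g f, h⟫ = ⟪f, reg g⁻¹ h⟫ := by
  rw [← reg_inner g f (reg g⁻¹ h), rho_mul, mul_inv_cancel, rho_one]

/-- left convolution -/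
noncomputable def Lam (κ : Perm (Fin n) → ℝ) : E n →ₗ[ℝ] E n := ∑ k, κ k • reg k

lemma Lam_apply (κ : Perm (Fin n) → ℝ) (f : E n) : Lam κ f = ∑ k, κ k • reg k f := by
  simp [Lam, LinearMap.sum_apply]

lemma Lam_apply' (κ : Perm (Fin n) → ℝ) (f : E n) (σ : Perm (Fin n)) :
    Lam κ f σ = ∑ k, κ k * f (k⁻¹ * σ) := by
  rw [Lam_apply]
  simp [reg_apply]

lemma Lam_add (κ κ' : Perm (Fin n) → ℝ) : Lam (κ + κ') = Lam κ + Lam κ' := by
  unfold Lam
  rw [← sum_add_distrib]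
  exact sum_congr rfl fun k _ => by rw [Pi.add_apply, add_smul]

lemma Lam_sub (κ κ' : Perm (Fin n) → ℝ) : Lam (κ - κ') = Lam κ - Lam κ' := by
  unfold Lam
  rw [← sum_sub_distrib]
  exact sum_congr rfl fun k _ => by rw [Pi.sub_apply, sub_smul]

lemma Lam_smul (c : ℝ) (κ : Perm (Fin n) → ℝ) : Lam (c • κ) = c • Lam κ := by
  unfold Lam
  rw [smul_sum]
  exact sum_congr rfl fun k _ => by rw [Pi.smul_apply, smul_assoc]

lemma Lam_sum {ι : Type*} (s : Finset ι) (κ : ι → Perm (Fin n) → ℝ) :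
    Lam (∑ i ∈ s, κ i) = ∑ i ∈ s, Lam (κ i) := by
  classical
  induction s using Finset.induction_on with
  | empty => simp [Lam]
  | insert a s ha ih => rw [sum_insert ha, sum_insert ha, Lam_add, ih]

/-- real class functions which are inversion invariant -/
def IsCl (κ : Perm (Fin n) → ℝ) : Prop :=
  (∀ g k, κ (g * k * g⁻¹) = κ k) ∧ ∀ k, κ k⁻¹ = κ k

lemma Lam_comm_reg {κ : Perm (Fin n) → ℝ} (h : IsCl κ) (g : Perm (Fin n)) (f : E n) :
    Lam κ (reg g f) = reg g (Lam κ f) := by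
  rw [Lam_apply, Lam_apply, map_sum]
  simp_rw [map_smul, rho_mul]
  refine Fintype.sum_equiv (MulAut.conj g⁻¹).toEquiv _ _ fun k => ?_
  have e : (MulAut.conj g⁻¹).toEquiv k = g⁻¹ * k * g := by
    change MulAut.conj g⁻¹ k = _
    rw [MulAut.conj_apply, inv_inv]
  rw [e]
  have h1 : κ (g⁻¹ * k * g) = κ k := by
    have := h.1 g⁻¹ k
    rwa [inv_inv] at this
  rw [h1]
  congr 3
  group

lemma Lam_symm {κ : Perm (Fin n) → ℝ} (h : IsCl κ) : (Lam κ).IsSymmetric := by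
  intro f g
  rw [Lam_apply, Lam_apply, sum_inner, inner_sum]
  simp_rw [real_inner_smul_left, real_inner_smul_right, reg_inner']
  refine Fintype.sum_equiv (Equiv.inv _) _ _ fun k => ?_
  rw [Equiv.inv_apply, h.2]

lemma Lam_comm {κ κ' : Perm (Fin n) → ℝ} (h : IsCl κ) (f : E n) :
    Lam κ (Lam κ' f) = Lam κ' (Lam κ f) := by
  rw [Lam_apply κ' f, Lam_apply κ' (Lam κ f), map_sum]
  simp_rw [map_smul, Lam_comm_reg h]

lemma inner_Lam (κ : Perm (Fin n) → ℝ) (f : E n) :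
    ⟪Lam κ f, f⟫ = ∑ g, ∑ h, f g * f h * κ (g * h⁻¹) := by
  rw [PiLp.inner_apply]
  refine sum_congr rfl fun g _ => ?_
  rw [Lam_apply']
  simp only [RCLike.inner_apply, conj_trivial]
  rw [mul_sum]
  have h1 : ∑ h, f g * f h * κ (g * h⁻¹) = ∑ k, f g * (κ k * f (k⁻¹ * g)) := by
    refine Fintype.sum_equiv ((Equiv.inv _).trans (Equiv.mulLeft g)) _ _ fun h => ?_
    simp only [Equiv.trans_apply, Equiv.inv_apply, Equiv.coe_mulLeft]
    have : (g * h⁻¹)⁻¹ * g = h := by group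
    rw [this]; ring
  rw [h1]

/-- matrix of a class function -/
def Mat (κ : Perm (Fin n) → ℝ) : Matrix (Perm (Fin n)) (Perm (Fin n)) ℝ := fun g h => κ (g * h⁻¹)

/-- positive semidefinite functions -/
def IsPSD (κ : Perm (Fin n) → ℝ) : Prop := (Mat κ).PosSemidef

lemma isPSD_of_inner {κ : Perm (Fin n) → ℝ} (h : IsCl κ) (h2 : ∀ f : E n, 0 ≤ ⟪Lam κ f, f⟫) : IsPSD κ := by
  unfold IsPSD
  rw [Matrix.posSemidef_iff_dotProduct_mulVec]
  constructor
  · ext g k
    simp only [Matrix.conjTranspose_apply, Mat, star_trivial]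
    have h1 := h.2 (g * k⁻¹)
    rw [mul_inv_rev, inv_inv] at h1
    exact h1
  · intro x
    have := h2 (WithLp.toLp 2 x)
    rw [inner_Lam] at this
    refine this.trans (le_of_eq ?_)
    simp only [dotProduct, Matrix.mulVec, Mat, star_trivial]
    refine sum_congr rfl fun g _ => ?_
    rw [mul_sum]
    refine sum_congr rfl fun k _ => ?_
    ring

lemma IsPSD.add {κ κ' : Perm (Fin n) → ℝ} (h : IsPSD κ) (h' : IsPSD κ') : IsPSD (κ + κ') :=
  Matrix.PosSemidef.add h h'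

lemma IsPSD.mul {κ κ' : Perm (Fin n) → ℝ} (h : IsPSD κ) (h' : IsPSD κ') : IsPSD (κ * κ') :=
  Matrix.PosSemidef.hadamard h h'

lemma IsPSD.sum_nonneg {κ : Perm (Fin n) → ℝ} (h : IsPSD κ) : 0 ≤ ∑ σ, κ σ := by
  unfold IsPSD at h
  rw [Matrix.posSemidef_iff_dotProduct_mulVec] at h
  have h1 := h.2 (fun _ => 1)
  simp only [dotProduct, Matrix.mulVec, Mat, star_trivial, one_mul, mul_one] at h1
  have h2 : ∀ g : Perm (Fin n), ∑ k, κ (g * k⁻¹) = ∑ σ, κ σ := by
    intro g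
    refine Fintype.sum_equiv ((Equiv.inv _).trans (Equiv.mulLeft g)) _ _ fun k => rfl
  have h3 : ∑ g : Perm (Fin n), ∑ k, κ (g * k⁻¹) = (Fintype.card (Perm (Fin n)) : ℝ) * ∑ σ, κ σ := by
    rw [sum_congr rfl fun g _ => h2 g, sum_const, nsmul_eq_mul]; rfl
  rw [h3] at h1
  have h4 : (0 : ℝ) < Fintype.card (Perm (Fin n)) := by exact_mod_cast Fintype.card_pos
  exact nonneg_of_mul_nonneg_right h1 h4

lemma IsPSD.pow_mono {κ κ' : Perm (Fin n) → ℝ} (h : IsPSD κ) (h' : IsPSD κ') (hd : IsPSD (κ' - κ)) :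
    ∀ m : ℕ, 1 ≤ m → IsPSD (κ ^ m) ∧ IsPSD (κ' ^ m) ∧ IsPSD (κ' ^ m - κ ^ m) := by
  intro m hm
  induction m, hm using Nat.le_induction with
  | base => simpa using ⟨h, h', hd⟩
  | succ m hm ih =>
    obtain ⟨h1, h2, h3⟩ := ih
    refine ⟨?_, ?_, ?_⟩
    · rw [pow_succ]; exact h1.mul h
    · rw [pow_succ]; exact h2.mul h'
    · have e : κ' ^ (m + 1) - κ ^ (m + 1) = κ' ^ m * (κ' - κ) + (κ' ^ m - κ ^ m) * κ := by
        rw [pow_succ, pow_succ]; ring
      rw [e]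
      exact (h2.mul hd).add (h3.mul h)

lemma sum_pow_mono {κ κ' : Perm (Fin n) → ℝ} (h : IsPSD κ) (h' : IsPSD κ') (hd : IsPSD (κ' - κ))
    {m : ℕ} (hm : 1 ≤ m) : ∑ σ, (κ σ) ^ m ≤ ∑ σ, (κ' σ) ^ m := by
  have := (IsPSD.pow_mono h h' hd m hm).2.2.sum_nonneg
  simp only [Pi.sub_apply, Pi.pow_apply, sum_sub_distrib] at this
  linarith

/-- a joint eigenvector with negative eigenvalue, if not positive. -/
lemma exists_joint {W : Type*} [NormedAddCommGroup W] [InnerProductSpace ℝ W] [FiniteDimensional ℝ W]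
    {S T : W →ₗ[ℝ] W} (hS : S.IsSymmetric) (hT : T.IsSymmetric) (hc : ∀ v, S (T v) = T (S v))
    (hneg : ∃ v, ⟪S v, v⟫ < 0) :
    ∃ (s r : ℝ) (w : W), s < 0 ∧ w ≠ 0 ∧ S w = s • w ∧ T w = r • w := by
  obtain ⟨v, hv⟩ := hneg
  have hv0 : v ≠ 0 := by
    rintro rfl
    simp at hv
  haveI : Nontrivial W := ⟨v, 0, hv0⟩
  -- choose a negative eigenvalue
  have hex : ∃ s : ℝ, s < 0 ∧ Module.End.HasEigenvalue S s := by
    by_contra hcon
    push Not at hcon
    have hpos : ∀ i, 0 ≤ hS.eigenvalues rfl i := by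
      intro i
      by_contra hlt
      rw [not_le] at hlt
      exact hcon _ hlt (hS.hasEigenvalue_eigenvalues rfl i)
    have : 0 ≤ ⟪S v, v⟫ := by
      have h1 := (hS.eigenvectorBasis rfl).sum_inner_mul_inner (S v) v
      rw [← h1]
      refine Finset.sum_nonneg fun i _ => ?_
      have h2 : ⟪S v, hS.eigenvectorBasis rfl i⟫ = hS.eigenvalues rfl i * ⟪v, hS.eigenvectorBasis rfl i⟫ := by
        rw [hS v, hS.apply_eigenvectorBasis, real_inner_smul_right]; rfl
      rw [h2, real_inner_comm v, mul_assoc]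
      exact mul_nonneg (hpos i) (mul_self_nonneg _)
    linarith
  obtain ⟨s, hs, hes⟩ := hex
  set W' : Submodule ℝ W := Module.End.eigenspace S s with hW'
  have memW' : ∀ w, w ∈ W' ↔ S w = s • w := fun w => Module.End.mem_eigenspace_iff
  have hTW : ∀ w ∈ W', T w ∈ W' := by
    intro w hw
    rw [memW'] at hw ⊢
    rw [hc, hw, map_smul]
  obtain ⟨w₀, hw₀⟩ := hes.exists_hasEigenvector
  haveI : Nontrivial W' := ⟨⟨w₀, hw₀.1⟩, 0, fun h => hw₀.2 (congrArg Subtype.val h)⟩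
  have hTs : (T.restrict hTW).IsSymmetric := hT.restrict_invariant hTW
  obtain ⟨r, hev⟩ : ∃ r : ℝ, Module.End.HasEigenvalue (T.restrict hTW) r :=
    ⟨_, hTs.hasEigenvalue_iInf_of_finiteDimensional⟩
  obtain ⟨w, hw⟩ := hev.exists_hasEigenvector
  refine ⟨s, r, (w : W), hs, fun h => hw.2 (Subtype.ext h), (memW' _).mp w.2, ?_⟩
  have h1 := hw.apply_eq_smul
  have h2 := congrArg Subtype.val h1
  rw [LinearMap.restrict_coe_apply] at h2
  exact h2

end Pool.Agent.RandTransp
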