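import Pool.Agent.Lib.MP_c0051b_pr.Avg

/-! Positive semidefiniteness of the two comparison functions. -/

open Finset Equiv
open scoped RealInnerProductSpace

namespace Pool.Agent.RandTransp

variable {n : ℕ}

/-- domination condition on the weights -/
def GoodW (n t : ℕ) (W : ℕ → ℕ → ℝ) : Prop :=
  (∀ a b, 0 ≤ W a b) ∧ ∀ a b : ℕ, a < n → 1 ≤ b → b ≤ a → b ≤ n - a →
    (((a : ℝ) ^ 2 + ((n : ℝ) - a) * b) / (n : ℝ) ^ 2) ^ t ≤ W a b ∨
    (((a : ℝ) ^ 2 + ((n : ℝ) - a) * b) / (n : ℝ) ^ 2) ^ t ≤ W a 0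

theorem mc (hn : 0 < n) {W : ℕ → ℕ → ℝ} {t : ℕ} (hW : GoodW n t W)
    (N : Submodule ℝ (E n)) (hN : ∀ g, ∀ v ∈ N, reg g v ∈ N) (hne : ∃ v ∈ N, v ≠ 0) {r : ℝ}
    (hr0 : 0 ≤ r) (hr : ∀ v ∈ N, Lam (K1 n) v = r • v) :
    r ≤ 1 ∧ ∃ v ∈ N, v ≠ 0 ∧ r ^ t * ‖v‖ ^ 2 ≤ ⟪Lam (cst n + Zw n W) v, v⟫ := by
  have hn' : (0 : ℝ) < n := by exact_mod_cast hn
  have hq : ∀ v ∈ N, QL reg univ univ v = ((n : ℝ) ^ 2 * r) • v := by
    intro v hv
    have h := hr v hv
    rw [Lam_K1] at h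
    rw [mul_smul, ← h, smul_smul, mul_inv_cancel₀ (by positivity), one_smul]
  have hadd : ∀ v : E n, ⟪Lam (cst n + Zw n W) v, v⟫ = ⟪Lam (cst n) v, v⟫ + ⟪Lam (Zw n W) v, v⟫ := by
    intro v
    rw [Lam_add, LinearMap.add_apply, inner_add_left]
  rcases mst reg N (fun x y v hv => hN _ v hv) hne _ hq with ⟨v, hv, hv0, hinv⟩ | h
  · have hall : ∀ g : Perm (Fin n), reg g v = v := by
      intro g
      induction g using Perm.swap_induction_on with
      | one => exact rho_one reg v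
      | swap_mul f x y _ ih =>
        rw [← rho_mul, ih]
        exact hinv x (mem_univ x) y (mem_univ y)
    have h1 := QL_block reg hinv
    rw [hq v hv, card_univ, Fintype.card_fin] at h1
    have h2 : ((n : ℝ) ^ 2 * r - (n : ℝ) ^ 2) • v = 0 := by
      rw [sub_smul, h1, sub_self]
    have h3 : (n : ℝ) ^ 2 * r - (n : ℝ) ^ 2 = 0 := (smul_eq_zero.mp h2).resolve_right hv0
    have hr1 : r = 1 := by
      have h4 : (n : ℝ) ^ 2 * (r - 1) = 0 := by linarith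
      rcases mul_eq_zero.mp h4 with h5 | h5
      · exact absurd h5 (by positivity)
      · linarith
    refine ⟨hr1.le, v, hv, hv0, ?_⟩
    rw [hadd, Lam_cst_inv hall, hr1, one_pow, one_mul, real_inner_self_eq_norm_sq]
    have := Lam_Zw_nonneg hW.1 v
    linarith
  · obtain ⟨A, B, v, hv, hv0, hA, hB, hAB, hAn, hB1, hBA, hBn, hqle⟩ := h
    have hAn' : (A.card : ℝ) < n := by exact_mod_cast hAn
    have hBn' : (B.card : ℝ) ≤ n - A.card := by
      rw [← Nat.cast_sub hAn.le]; exact_mod_cast hBn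
    have hA0 : (0 : ℝ) ≤ A.card := Nat.cast_nonneg _
    have hB0 : (0 : ℝ) ≤ B.card := Nat.cast_nonneg _
    have hr_le : r ≤ ((A.card : ℝ) ^ 2 + ((n : ℝ) - A.card) * B.card) / (n : ℝ) ^ 2 := by
      rw [le_div_iff₀ (by positivity)]
      nlinarith
    have hr1 : r ≤ 1 := by
      refine hr_le.trans ?_
      rw [div_le_one (by positivity)]
      nlinarith
    refine ⟨hr1, v, hv, hv0, ?_⟩
    have hpow : r ^ t ≤ (((A.card : ℝ) ^ 2 + ((n : ℝ) - A.card) * B.card) / (n : ℝ) ^ 2) ^ t :=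
      pow_le_pow_left₀ hr0 hr_le t
    have hcst := Lam_cst_inner_nonneg v
    rw [hadd]
    rcases hW.2 A.card B.card hAn hB1 hBA hBn with h | h
    · have h1 := Lam_Zw_ge hW.1 hAB hA hB
      have h2 : r ^ t * ‖v‖ ^ 2 ≤ W A.card B.card * ‖v‖ ^ 2 := by
        apply mul_le_mul_of_nonneg_right (hpow.trans h) (by positivity)
      linarith
    · have h1 := Lam_Zw_ge hW.1 (Finset.disjoint_empty_right A) hA (inv_empty reg v)
      rw [card_empty] at h1
      have h2 : r ^ t * ‖v‖ ^ 2 ≤ W A.card 0 * ‖v‖ ^ 2 := by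
        apply mul_le_mul_of_nonneg_right (hpow.trans h) (by positivity)
      linarith

/-- the second part of the comparison -/
theorem mc2 (hn : 2 ≤ n) {W : ℕ → ℕ → ℝ} {t : ℕ} (hW : GoodW n t W)
    (N : Submodule ℝ (E n)) (hN : ∀ g, ∀ v ∈ N, reg g v ∈ N) (hne : ∃ v ∈ N, v ≠ 0) {r : ℝ}
    (hr : ∀ v ∈ N, Lam (K1 n) v = r • v) :
    ∃ v ∈ N, v ≠ 0 ∧ |r| ^ t * ‖v‖ ^ 2 ≤ ⟪Lam (cst n + Zw n W) v, v⟫
      + (1 - 2 / (n : ℝ)) ^ t * ⟪Lam (sg n * (cst n + Zw n W)) v, v⟫ ∧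
      (r < 0 → |r| ^ t * ‖v‖ ^ 2 ≤ (1 - 2 / (n : ℝ)) ^ t * ⟪Lam (sg n * (cst n + Zw n W)) v, v⟫) := by
  have hn0 : 0 < n := by omega
  have hn' : (2 : ℝ) ≤ n := by exact_mod_cast hn
  have hγ : 0 ≤ 1 - 2 / (n : ℝ) := by
    rw [sub_nonneg, div_le_one (by linarith)]; exact hn'
  have hnn : ∀ v : E n, 0 ≤ ⟪Lam (cst n + Zw n W) v, v⟫ := by
    intro v
    rw [Lam_add, LinearMap.add_apply, inner_add_left]
    exact add_nonneg (Lam_cst_inner_nonneg v) (Lam_Zw_nonneg hW.1 v)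
  rcases le_or_gt 0 r with hr0 | hr0
  · obtain ⟨-, v, hv, hv0, h⟩ := mc hn0 hW N hN hne hr0 hr
    refine ⟨v, hv, hv0, ?_, fun h' => absurd h' (not_lt.mpr hr0)⟩
    rw [abs_of_nonneg hr0]
    have h1 : 0 ≤ (1 - 2 / (n : ℝ)) ^ t * ⟪Lam (sg n * (cst n + Zw n W)) v, v⟫ := by
      rw [Lam_sg_inner]
      exact mul_nonneg (pow_nonneg hγ t) (hnn _)
    linarith
  · -- twisted space
    set N' : Submodule ℝ (E n) :=
      { carrier := {v | J v ∈ N}
        add_mem' := fun {u v} hu hv => by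
          change J (u + v) ∈ N
          rw [J_add]; exact N.add_mem hu hv
        zero_mem' := by
          change J 0 ∈ N
          have : J (0 : E n) = 0 := by ext σ; simp [J_apply]
          rw [this]; exact N.zero_mem
        smul_mem' := fun c v hv => by
          change J (c • v) ∈ N
          rw [J_smul]; exact N.smul_mem c hv } with hN'def
    have memN' : ∀ v, v ∈ N' ↔ J v ∈ N := fun v => Iff.rfl
    have hN' : ∀ g, ∀ v ∈ N', reg g v ∈ N' := by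
      intro g v hv
      rw [memN'] at hv ⊢
      rw [J_reg]
      exact N.smul_mem _ (hN g _ hv)
    have hne' : ∃ v ∈ N', v ≠ 0 := by
      obtain ⟨v, hv, hv0⟩ := hne
      refine ⟨J v, ?_, ?_⟩
      · rw [memN', J_J]; exact hv
      · intro h
        apply hv0
        rw [← J_J v, h]
        ext σ; simp [J_apply]
    have hr' : ∀ v ∈ N', Lam (K1 n) v = (2 / (n : ℝ) - r) • v := by
      intro v hv
      rw [memN'] at hv
      have h1 := K1_J hn0 (J v)
      rw [J_J, hr _ hv, J_smul, J_J] at h1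
      rw [h1, sub_smul]
    have hr'0 : 0 ≤ 2 / (n : ℝ) - r := by
      have : (0 : ℝ) ≤ 2 / n := by positivity
      linarith
    obtain ⟨hr1, v, hv, hv0, h⟩ := mc hn0 hW N' hN' hne' hr'0 hr'
    have key : |r| ^ t * ‖J v‖ ^ 2 ≤ (1 - 2 / (n : ℝ)) ^ t * ⟪Lam (sg n * (cst n + Zw n W)) (J v), J v⟫ := by
      rw [Lam_sg_inner, J_J, J_norm]
      have h1 : |r| ≤ (1 - 2 / (n : ℝ)) * (2 / (n : ℝ) - r) := by
        rw [abs_of_neg hr0]
        have h2 : (0 : ℝ) ≤ 2 / n := by positivity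
        nlinarith
      have h2 : |r| ^ t ≤ (1 - 2 / (n : ℝ)) ^ t * (2 / (n : ℝ) - r) ^ t := by
        rw [← mul_pow]
        exact pow_le_pow_left₀ (abs_nonneg _) h1 t
      calc |r| ^ t * ‖v‖ ^ 2 ≤ ((1 - 2 / (n : ℝ)) ^ t * (2 / (n : ℝ) - r) ^ t) * ‖v‖ ^ 2 :=
            mul_le_mul_of_nonneg_right h2 (by positivity)
        _ = (1 - 2 / (n : ℝ)) ^ t * ((2 / (n : ℝ) - r) ^ t * ‖v‖ ^ 2) := by ring
        _ ≤ _ := mul_le_mul_of_nonneg_left h (pow_nonneg hγ t)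
    refine ⟨J v, hv, ?_, ?_, fun _ => key⟩
    · intro h
      apply hv0
      rw [← J_J v, h]
      ext σ; simp [J_apply]
    · have := hnn (J v)
      linarith

/-- general principle: to show that a class function is PSD it suffices to treat joint
eigenspaces. -/
theorem psd_of_joint {S : Perm (Fin n) → ℝ} (hS : IsCl S)
    (h : ∀ (N : Submodule ℝ (E n)), (∀ g, ∀ v ∈ N, reg g v ∈ N) → (∃ v ∈ N, v ≠ 0) → ∀ r : ℝ,
      (∀ v ∈ N, Lam (K1 n) v = r • v) → ∃ v ∈ N, v ≠ 0 ∧ 0 ≤ ⟪Lam S v, v⟫) : IsPSD S := by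
  apply isPSD_of_inner hS
  by_contra hcon
  push Not at hcon
  obtain ⟨s, r, w, hs, hw0, hSw, hTw⟩ := exists_joint (Lam_symm hS) (Lam_symm K1_cl)
    (fun v => Lam_comm hS v) hcon
  set N : Submodule ℝ (E n) :=
    { carrier := {v | Lam S v = s • v ∧ Lam (K1 n) v = r • v}
      add_mem' := fun {u v} hu hv => ⟨by rw [map_add, hu.1, hv.1, smul_add], by rw [map_add, hu.2, hv.2, smul_add]⟩
      zero_mem' := ⟨by rw [map_zero, smul_zero], by rw [map_zero, smul_zero]⟩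
      smul_mem' := fun c v hv => ⟨by rw [map_smul, hv.1, smul_comm], by rw [map_smul, hv.2, smul_comm]⟩ } with hNdef
  have memN : ∀ v, v ∈ N ↔ Lam S v = s • v ∧ Lam (K1 n) v = r • v := fun v => Iff.rfl
  have hN : ∀ g, ∀ v ∈ N, reg g v ∈ N := by
    intro g v hv
    rw [memN] at hv ⊢
    rw [Lam_comm_reg hS, Lam_comm_reg K1_cl, hv.1, hv.2, map_smul, map_smul]
    exact ⟨rfl, rfl⟩
  obtain ⟨v, hv, hv0, hvS⟩ := h N hN ⟨w, ⟨hSw, hTw⟩, hw0⟩ r (fun v hv => ((memN v).mp hv).2)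
  rw [((memN v).mp hv).1, real_inner_smul_left, real_inner_self_eq_norm_sq] at hvS
  have : 0 < ‖v‖ ^ 2 := by positivity
  nlinarith

lemma IsCl.add {κ κ' : Perm (Fin n) → ℝ} (h : IsCl κ) (h' : IsCl κ') : IsCl (κ + κ') :=
  ⟨fun g k => by rw [Pi.add_apply, Pi.add_apply, h.1, h'.1], fun k => by rw [Pi.add_apply, Pi.add_apply, h.2, h'.2]⟩

lemma IsCl.sub {κ κ' : Perm (Fin n) → ℝ} (h : IsCl κ) (h' : IsCl κ') : IsCl (κ - κ') :=
  ⟨fun g k => by rw [Pi.sub_apply, Pi.sub_apply, h.1, h'.1], fun k => by rw [Pi.sub_apply, Pi.sub_apply, h.2, h'.2]⟩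

lemma IsCl.smul (c : ℝ) {κ : Perm (Fin n) → ℝ} (h : IsCl κ) : IsCl (c • κ) :=
  ⟨fun g k => by rw [Pi.smul_apply, Pi.smul_apply, h.1], fun k => by rw [Pi.smul_apply, Pi.smul_apply, h.2]⟩

lemma uf_cl (W : ℕ → ℕ → ℝ) : IsCl (cst n + Zw n W) := cst_cl.add (Zw_cl W)

theorem psd_S1 (hn : 2 ≤ n) {W : ℕ → ℕ → ℝ} {t : ℕ} (hW : GoodW n t W) :
    IsPSD ((cst n + Zw n W) + ((1 - 2 / (n : ℝ)) ^ t) • (sg n * (cst n + Zw n W)) - walk n t) := by
  apply psd_of_joint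
  · exact ((uf_cl W).add (IsCl.smul _ (sg_cl (uf_cl W)))).sub (walk_cl t)
  · intro N hN hne r hr
    obtain ⟨v, hv, hv0, h1, -⟩ := mc2 hn hW N hN hne hr
    refine ⟨v, hv, hv0, ?_⟩
    rw [Lam_sub, LinearMap.sub_apply, inner_sub_left, Lam_add (cst n + Zw n W), LinearMap.add_apply,
      inner_add_left, Lam_smul, LinearMap.smul_apply, real_inner_smul_left, Lam_walk_eig t (hr v hv),
      real_inner_smul_left, real_inner_self_eq_norm_sq]
    have h2 : r ^ t * ‖v‖ ^ 2 ≤ |r| ^ t * ‖v‖ ^ 2 := by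
      apply mul_le_mul_of_nonneg_right _ (by positivity)
      rw [← abs_pow]; exact le_abs_self _
    linarith

theorem psd_S2 (hn : 2 ≤ n) {W : ℕ → ℕ → ℝ} {t : ℕ} (hW : GoodW n t W) :
    IsPSD (walk n t - cst n + ((1 - 2 / (n : ℝ)) ^ t) • (sg n * (cst n + Zw n W))) := by
  have hn' : (2 : ℝ) ≤ n := by exact_mod_cast hn
  have hγ : 0 ≤ 1 - 2 / (n : ℝ) := by
    rw [sub_nonneg, div_le_one (by linarith)]; exact hn'
  apply psd_of_joint
  · exact ((walk_cl t).sub cst_cl).add (IsCl.smul _ (sg_cl (uf_cl W)))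
  · intro N hN hne r hr
    obtain ⟨v, hv, hv0, -, h1⟩ := mc2 hn hW N hN hne hr
    refine ⟨v, hv, hv0, ?_⟩
    rw [Lam_add, LinearMap.add_apply, inner_add_left, Lam_sub, LinearMap.sub_apply, inner_sub_left,
      Lam_smul, LinearMap.smul_apply, real_inner_smul_left, Lam_walk_eig t (hr v hv),
      real_inner_smul_left, real_inner_self_eq_norm_sq]
    have hE : r = 1 ∨ Lam (cst n) v = 0 := by
      have h2 := Lam_cst_K1 (by omega) v
      rw [hr v hv, map_smul] at h2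
      have h3 : (r - 1) • Lam (cst n) v = 0 := by
        rw [sub_smul, h2, one_smul, sub_self]
      rcases smul_eq_zero.mp h3 with h4 | h4
      · left; linarith
      · right; exact h4
    rcases le_or_gt 0 r with hr0 | hr0
    · have h3 : 0 ≤ (1 - 2 / (n : ℝ)) ^ t * ⟪Lam (sg n * (cst n + Zw n W)) v, v⟫ := by
        rw [Lam_sg_inner]
        apply mul_nonneg (pow_nonneg hγ t)
        rw [Lam_add, LinearMap.add_apply, inner_add_left]
        exact add_nonneg (Lam_cst_inner_nonneg _) (Lam_Zw_nonneg hW.1 _)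
      rcases hE with rfl | hE
      · rw [one_pow, one_mul]
        have := Lam_cst_inner_le v
        linarith
      · rw [hE, inner_zero_left, sub_zero]
        positivity
    · have hr1 : r ≠ 1 := by intro h; linarith
      rw [hE.resolve_left hr1, inner_zero_left, sub_zero]
      have h2 := h1 hr0
      have h3 : -(|r| ^ t) * ‖v‖ ^ 2 ≤ r ^ t * ‖v‖ ^ 2 := by
        apply mul_le_mul_of_nonneg_right _ (by positivity)
        rw [← abs_pow]; exact neg_abs_le _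
      linarith

end Pool.Agent.RandTransp
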