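import Mathlib

/-! Representation theoretic core: bounding the eigenvalue of the sum of all transpositions
through vectors invariant under products of symmetric groups. -/

open Finset Equiv

namespace Pool.Agent.RandTransp

variable {n : ℕ} {V : Type*} [AddCommGroup V] [Module ℝ V] (ρ : Perm (Fin n) →* (V →ₗ[ℝ] V))

/-- `v` is invariant under the symmetric group of `A`. -/
def Inv (A : Finset (Fin n)) (v : V) : Prop := ∀ x ∈ A, ∀ y ∈ A, ρ (swap x y) v = v

/-- partial sum over transpositions -/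
def QL (M M' : Finset (Fin n)) : V →ₗ[ℝ] V := ∑ x ∈ M, ∑ y ∈ M', ρ (swap x y)

lemma QL_apply (M M' : Finset (Fin n)) (v : V) : QL ρ M M' v = ∑ x ∈ M, ∑ y ∈ M', ρ (swap x y) v := by
  simp [QL, LinearMap.sum_apply]

lemma rho_mul (g h : Perm (Fin n)) (v : V) : ρ g (ρ h v) = ρ (g * h) v := by
  rw [map_mul]; rfl

lemma rho_one (v : V) : ρ 1 v = v := by rw [map_one]; rfl

lemma Inv.mono {A B : Finset (Fin n)} {v : V} (h : Inv ρ A v) (hB : B ⊆ A) : Inv ρ B v :=
  fun x hx y hy => h x (hB hx) y (hB hy)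

lemma inv_singleton (x : Fin n) (v : V) : Inv ρ {x} v := by
  intro y hy z hz
  rw [mem_singleton] at hy hz
  rw [hy, hz, swap_self]
  exact rho_one ρ v

lemma inv_empty (v : V) : Inv ρ ∅ v := by
  intro y hy; simp at hy

lemma swap_mul_swap_conj {x y z w : Fin n} (hxz : x ≠ z) (hxw : x ≠ w) :
    swap z w * swap x y = swap x (swap z w y) * swap z w := by
  have h := Equiv.swap_mul_eq_mul_swap (swap z w) x y
  have h2 : swap z w * swap x y = swap ((swap z w) x) ((swap z w) y) * swap z w := by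
    rw [Equiv.mul_swap_eq_swap_mul]
  rw [h2, Equiv.swap_apply_of_ne_of_ne hxz hxw]

lemma inv_extend {A : Finset (Fin n)} {v : V} (h : Inv ρ A v) {x : Fin n} (hx : x ∉ A) :
    Inv ρ (insert x A) (v + ∑ y ∈ A, ρ (swap x y) v) := by
  have key1 : ∀ w ∈ A, ρ (swap x w) (v + ∑ y ∈ A, ρ (swap x y) v) = v + ∑ y ∈ A, ρ (swap x y) v := by
    intro w hw
    rw [map_add, map_sum, ← Finset.add_sum_erase A _ hw, ← Finset.add_sum_erase A (fun y => ρ (swap x y) v) hw]
    rw [rho_mul, swap_mul_self, rho_one]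
    have : ∀ y ∈ A.erase w, ρ (swap x w) (ρ (swap x y) v) = ρ (swap x y) v := by
      intro y hy
      rw [mem_erase] at hy
      have hxy : x ≠ y := fun e => hx (e ▸ hy.2)
      have hxw : x ≠ w := fun e => hx (e ▸ hw)
      have e : swap x w * swap x y = swap x y * swap y w := by
        have h1 := Equiv.mul_swap_eq_swap_mul (swap x y) y w
        rw [swap_apply_right, swap_apply_of_ne_of_ne hxw.symm (Ne.symm hy.1)] at h1
        exact h1.symm
      rw [rho_mul, e, ← rho_mul, h y hy.2 w hw]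
    rw [Finset.sum_congr rfl this]
    abel
  have key2 : ∀ z ∈ A, ∀ w ∈ A, ρ (swap z w) (v + ∑ y ∈ A, ρ (swap x y) v) = v + ∑ y ∈ A, ρ (swap x y) v := by
    intro z hz w hw
    have hxz : x ≠ z := fun e => hx (e ▸ hz)
    have hxw : x ≠ w := fun e => hx (e ▸ hw)
    rw [map_add, map_sum, h z hz w hw]
    congr 1
    have : ∀ y ∈ A, ρ (swap z w) (ρ (swap x y) v) = ρ (swap x (swap z w y)) v := by
      intro y _
      rw [rho_mul, swap_mul_swap_conj hxz hxw, ← rho_mul, h z hz w hw]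
    rw [Finset.sum_congr rfl this]
    refine Finset.sum_equiv (swap z w) (fun y => ?_) (fun y _ => rfl)
    by_cases h1 : y = z
    · rw [h1, swap_apply_left]; exact ⟨fun _ => hw, fun _ => hz⟩
    · by_cases h2 : y = w
      · rw [h2, swap_apply_right]; exact ⟨fun _ => hz, fun _ => hw⟩
      · rw [swap_apply_of_ne_of_ne h1 h2]
  intro z hz w hw
  rw [mem_insert] at hz hw
  rcases hz with rfl | hz
  · rcases hw with rfl | hw
    · rw [swap_self]; exact rho_one ρ _
    · exact key1 w hw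
  · rcases hw with rfl | hw
    · rw [swap_comm]; exact key1 z hz
    · exact key2 z hz w hw

lemma inv_other {A : Finset (Fin n)} {v : V} (h : Inv ρ A v) {x y : Fin n} (hx : x ∉ A) (hy : y ∉ A) :
    Inv ρ A (ρ (swap x y) v) := by
  intro z hz w hw
  have hxz : x ≠ z := fun e => hx (e ▸ hz)
  have hxw : x ≠ w := fun e => hx (e ▸ hw)
  have hyz : y ≠ z := fun e => hy (e ▸ hz)
  have hyw : y ≠ w := fun e => hy (e ▸ hw)
  rw [rho_mul, swap_mul_swap_conj hxz hxw, swap_apply_of_ne_of_ne hyz hyw, ← rho_mul, h z hz w hw]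

lemma QL_comm (M M' : Finset (Fin n)) (v : V) : QL ρ M M' v = QL ρ M' M v := by
  rw [QL_apply, QL_apply, Finset.sum_comm]
  simp_rw [swap_comm]

lemma QL_conj {M : Finset (Fin n)} {x y : Fin n} (hx : x ∈ M) (hy : y ∈ M) (v : V) :
    QL ρ M M (ρ (swap x y) v) = ρ (swap x y) (QL ρ M M v) := by
  have hmem : ∀ z, z ∈ M ↔ swap x y z ∈ M := by
    intro z
    by_cases h1 : z = x
    · rw [h1, swap_apply_left]; exact ⟨fun _ => hy, fun _ => hx⟩
    · by_cases h2 : z = y
      · rw [h2, swap_apply_right]; exact ⟨fun _ => hx, fun _ => hy⟩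
      · rw [swap_apply_of_ne_of_ne h1 h2]
  rw [QL_apply, QL_apply, map_sum]
  simp_rw [map_sum, rho_mul]
  symm
  refine Finset.sum_equiv (swap x y) hmem fun z _ => ?_
  refine Finset.sum_equiv (swap x y) hmem fun w _ => ?_
  rw [Equiv.mul_swap_eq_swap_mul]

lemma QL_block {A : Finset (Fin n)} {v : V} (h : Inv ρ A v) : QL ρ A A v = ((A.card : ℝ) ^ 2) • v := by
  rw [QL_apply]
  have : ∀ x ∈ A, ∑ y ∈ A, ρ (swap x y) v = (A.card : ℝ) • v := by
    intro x hx
    rw [Finset.sum_congr rfl (fun y hy => h x hx y hy), Finset.sum_const, Nat.cast_smul_eq_nsmul]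
  rw [Finset.sum_congr rfl this, Finset.sum_const, ← Nat.cast_smul_eq_nsmul ℝ, smul_smul, sq]

lemma QL_split {M B : Finset (Fin n)} (hB : B ⊆ M) (v : V) :
    QL ρ M M v = QL ρ B B v + (2 : ℝ) • QL ρ (M \ B) B v + QL ρ (M \ B) (M \ B) v := by
  have h1 : QL ρ M M v = QL ρ B M v + QL ρ (M \ B) M v := by
    rw [QL_apply, QL_apply, QL_apply, ← Finset.sum_sdiff hB, add_comm]
  have h2 : ∀ N : Finset (Fin n), QL ρ N M v = QL ρ N B v + QL ρ N (M \ B) v := by
    intro N
    rw [QL_apply, QL_apply, QL_apply, ← Finset.sum_add_distrib]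
    refine Finset.sum_congr rfl fun x _ => ?_
    rw [← Finset.sum_sdiff hB, add_comm]
  rw [h1, h2, h2, QL_comm ρ B (M \ B), two_smul]
  abel

lemma QL_cross {B C : Finset (Fin n)} {v : V} (h : ∀ x ∈ C, v + ∑ y ∈ B, ρ (swap x y) v = 0) :
    QL ρ C B v = -((C.card : ℝ) • v) := by
  rw [QL_apply]
  have : ∀ x ∈ C, ∑ y ∈ B, ρ (swap x y) v = -v := by
    intro x hx
    exact (eq_neg_of_add_eq_zero_right (h x hx))
  rw [Finset.sum_congr rfl this, Finset.sum_const, ← Nat.cast_smul_eq_nsmul ℝ, smul_neg]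

theorem lemmaG : ∀ (m : ℕ) (M : Finset (Fin n)), M.card = m → ∀ N : Submodule ℝ V,
    (∀ x ∈ M, ∀ y ∈ M, ∀ v ∈ N, ρ (swap x y) v ∈ N) → ∀ b : ℕ,
    (∀ Z ⊆ M, Z.card = b + 1 → ∀ v ∈ N, Inv ρ Z v → v = 0) →
    ∀ (q : ℝ) (w : V), w ∈ N → w ≠ 0 → QL ρ M M w = q • w → q ≤ m * b := by
  classical
  intro m
  induction m using Nat.strong_induction_on with
  | _ m ih =>
    intro M hM N hN b hb q w hw hw0 hq
    -- the eigenspace
    set Nq : Submodule ℝ V := N ⊓ LinearMap.ker (QL ρ M M - q • LinearMap.id) with hNq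
    have memNq : ∀ v, v ∈ Nq ↔ v ∈ N ∧ QL ρ M M v = q • v := by
      intro v
      rw [hNq, Submodule.mem_inf, LinearMap.mem_ker, LinearMap.sub_apply, LinearMap.smul_apply,
        LinearMap.id_apply, sub_eq_zero]
    have hwq : w ∈ Nq := (memNq w).mpr ⟨hw, hq⟩
    have hNqs : ∀ x ∈ M, ∀ y ∈ M, ∀ v ∈ Nq, ρ (swap x y) v ∈ Nq := by
      intro x hx y hy v hv
      rw [memNq] at hv ⊢
      refine ⟨hN x hx y hy v hv.1, ?_⟩
      rw [QL_conj ρ hx hy, hv.2, map_smul]
    -- maximal block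
    set P : Finset (Finset (Fin n)) := M.powerset.filter (fun B => ∃ v ∈ Nq, v ≠ 0 ∧ Inv ρ B v) with hP
    have hPne : P.Nonempty := ⟨∅, by
      rw [hP, mem_filter]
      exact ⟨empty_mem_powerset M, w, hwq, hw0, inv_empty ρ w⟩⟩
    obtain ⟨B, hBP, hBmax⟩ := Finset.exists_max_image P Finset.card hPne
    have hBP' := hBP
    rw [hP, mem_filter, mem_powerset] at hBP'
    obtain ⟨hBM, v, hv, hv0, hvB⟩ := hBP'
    have hmax : ∀ Z ⊆ M, B.card < Z.card → ∀ u ∈ Nq, Inv ρ Z u → u = 0 := by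
      intro Z hZ hcard u hu huZ
      by_contra hne
      have : Z ∈ P := by
        rw [hP, mem_filter, mem_powerset]
        exact ⟨hZ, u, hu, hne, huZ⟩
      exact absurd (hBmax Z this) (not_le.mpr hcard)
    have hcross : ∀ x ∈ M \ B, v + ∑ y ∈ B, ρ (swap x y) v = 0 := by
      intro x hx
      rw [mem_sdiff] at hx
      apply hmax (insert x B)
      · intro z hz
        rw [mem_insert] at hz
        rcases hz with rfl | hz
        · exact hx.1
        · exact hBM hz
      · rw [card_insert_of_notMem hx.2]; omega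
      · apply Submodule.add_mem _ hv
        apply Submodule.sum_mem
        intro y hy
        exact hNqs x hx.1 y (hBM hy) v hv
      · exact inv_extend ρ hvB hx.2
    have hqv : QL ρ M M v = q • v := ((memNq v).mp hv).2
    have hCC : QL ρ (M \ B) (M \ B) v = (q - (B.card : ℝ) ^ 2 + 2 * ((M \ B).card : ℝ)) • v := by
      have h1 := QL_split ρ hBM v
      rw [hqv, QL_block ρ hvB, QL_cross ρ hcross] at h1
      have h2 : QL ρ (M \ B) (M \ B) v = q • v - ((B.card : ℝ) ^ 2) • v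
          + (2 : ℝ) • (((M \ B).card : ℝ) • v) := by
        rw [h1, smul_neg]; abel
      rw [h2, smul_smul, ← sub_smul, ← add_smul]
    have hbB : B.card ≤ b := by
      by_contra hlt
      rw [not_le] at hlt
      obtain ⟨Z, hZB, hZc⟩ := Finset.exists_subset_card_eq (show b + 1 ≤ B.card by omega)
      exact hv0 (hb Z (hZB.trans hBM) hZc v ((memNq v).mp hv).1 (hvB.mono ρ hZB))
    rcases Finset.eq_empty_or_nonempty M with hMe | ⟨x₀, hx₀⟩
    · subst hMe
      have hm0 : m = 0 := by rw [← hM]; rfl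
      have : q • w = 0 := by
        rw [← hq, QL_apply]; simp
      rcases smul_eq_zero.mp this with h | h
      · rw [h, hm0]; simp
      · exact absurd h hw0
    · have hB1 : 1 ≤ B.card := by
        have : ({x₀} : Finset (Fin n)) ∈ P := by
          rw [hP, mem_filter, mem_powerset]
          exact ⟨by simpa using hx₀, w, hwq, hw0, inv_singleton ρ x₀ w⟩
        simpa using hBmax _ this
      have hcardC : (M \ B).card = m - B.card := by
        rw [card_sdiff_of_subset hBM, hM]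
      have hBm : B.card ≤ m := by rw [← hM]; exact card_le_card hBM
      have hih := ih (M \ B).card (by omega) (M \ B) rfl Nq
        (fun x hx y hy u hu => hNqs x (mem_sdiff.mp hx).1 y (mem_sdiff.mp hy).1 u hu) B.card
        (fun Z hZ hZc u hu huZ => hmax Z (hZ.trans sdiff_subset) (by omega) u hu huZ)
        _ v hv hv0 hCC
      have hcr : ((M \ B).card : ℝ) = m - B.card := by
        rw [hcardC, Nat.cast_sub hBm]
      rw [hcr] at hih
      have h1 : (1 : ℝ) ≤ B.card := by exact_mod_cast hB1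
      have h2 : (B.card : ℝ) ≤ b := by exact_mod_cast hbB
      have h3 : (B.card : ℝ) ≤ m := by exact_mod_cast hBm
      have h4 : (0 : ℝ) ≤ m := Nat.cast_nonneg m
      have h5 : (m : ℝ) * B.card ≤ m * b := by gcongr
      nlinarith

/-- Main structural theorem. -/
theorem mst (N : Submodule ℝ V) (hN : ∀ x y : Fin n, ∀ v ∈ N, ρ (swap x y) v ∈ N)
    (hne : ∃ v ∈ N, v ≠ 0) (q : ℝ) (hq : ∀ v ∈ N, QL ρ univ univ v = q • v) :
    (∃ v ∈ N, v ≠ 0 ∧ Inv ρ univ v) ∨
    ∃ A B : Finset (Fin n), ∃ v ∈ N, v ≠ 0 ∧ Inv ρ A v ∧ Inv ρ B v ∧ Disjoint A B ∧ A.card < n ∧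
      1 ≤ B.card ∧ B.card ≤ A.card ∧ B.card ≤ n - A.card ∧
      q ≤ (A.card : ℝ) ^ 2 + ((n : ℝ) - A.card) * B.card - 2 * ((n : ℝ) - A.card) := by
  classical
  obtain ⟨w, hw, hw0⟩ := hne
  set P : Finset (Finset (Fin n)) := univ.filter (fun B => ∃ v ∈ N, v ≠ 0 ∧ Inv ρ B v) with hP
  have hPne : P.Nonempty := ⟨∅, by
    rw [hP, mem_filter]
    exact ⟨mem_univ _, w, hw, hw0, inv_empty ρ w⟩⟩
  obtain ⟨A, hAP, hAmax⟩ := Finset.exists_max_image P Finset.card hPne
  have hAP' := hAP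
  rw [hP, mem_filter] at hAP'
  obtain ⟨-, v, hv, hv0, hvA⟩ := hAP'
  have hmaxA : ∀ Z : Finset (Fin n), A.card < Z.card → ∀ u ∈ N, Inv ρ Z u → u = 0 := by
    intro Z hcard u hu huZ
    by_contra hne
    have : Z ∈ P := by
      rw [hP, mem_filter]
      exact ⟨mem_univ _, u, hu, hne, huZ⟩
    exact absurd (hAmax Z this) (not_le.mpr hcard)
  by_cases hAn : A.card = n
  · left
    have hAu : A = univ := by
      rw [← Finset.card_eq_iff_eq_univ, hAn, Fintype.card_fin]
    exact ⟨v, hv, hv0, hAu ▸ hvA⟩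
  right
  have hAle : A.card ≤ n := by simpa using Finset.card_le_univ A
  have hAlt : A.card < n := by omega
  -- invariants
  set NA : Submodule ℝ V :=
    { carrier := {u | u ∈ N ∧ Inv ρ A u}
      add_mem' := fun {u u'} hu hu' => ⟨N.add_mem hu.1 hu'.1, fun x hx y hy => by
        rw [map_add, hu.2 x hx y hy, hu'.2 x hx y hy]⟩
      zero_mem' := ⟨N.zero_mem, fun x _ y _ => map_zero _⟩
      smul_mem' := fun c u hu => ⟨N.smul_mem c hu.1, fun x hx y hy => by
        rw [map_smul, hu.2 x hx y hy]⟩ } with hNA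
  have memNA : ∀ u, u ∈ NA ↔ u ∈ N ∧ Inv ρ A u := fun u => Iff.rfl
  have hNAs : ∀ x ∈ Aᶜ, ∀ y ∈ Aᶜ, ∀ u ∈ NA, ρ (swap x y) u ∈ NA := by
    intro x hx y hy u hu
    rw [mem_compl] at hx hy
    exact ⟨hN x y u hu.1, inv_other ρ hu.2 hx hy⟩
  have hcross : ∀ u ∈ NA, ∀ x ∈ Aᶜ, u + ∑ y ∈ A, ρ (swap x y) u = 0 := by
    intro u hu x hx
    rw [mem_compl] at hx
    apply hmaxA (insert x A)
    · rw [card_insert_of_notMem hx]; omega
    · apply Submodule.add_mem _ hu.1
      apply Submodule.sum_mem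
      intro y _
      exact hN x y u hu.1
    · exact inv_extend ρ hu.2 hx
  have hCC : ∀ u ∈ NA, QL ρ Aᶜ Aᶜ u = (q - (A.card : ℝ) ^ 2 + 2 * ((n : ℝ) - A.card)) • u := by
    intro u hu
    have h1 := QL_split ρ (subset_univ A) u
    have e : (univ \ A : Finset (Fin n)) = Aᶜ := (compl_eq_univ_sdiff A).symm
    rw [e, hq u hu.1, QL_block ρ hu.2, QL_cross ρ (hcross u hu)] at h1
    have hc : ((Aᶜ.card : ℕ) : ℝ) = n - A.card := by
      rw [card_compl, Fintype.card_fin, Nat.cast_sub hAle]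
    rw [hc] at h1
    have h2 : QL ρ Aᶜ Aᶜ u = q • u - ((A.card : ℝ) ^ 2) • u
        + (2 : ℝ) • (((n : ℝ) - A.card) • u) := by
      rw [h1, smul_neg]; abel
    rw [h2, smul_smul, ← sub_smul, ← add_smul]
  set P' : Finset (Finset (Fin n)) := Aᶜ.powerset.filter (fun B => ∃ v ∈ NA, v ≠ 0 ∧ Inv ρ B v) with hP'
  have hP'ne : P'.Nonempty := ⟨∅, by
    rw [hP', mem_filter]
    exact ⟨empty_mem_powerset _, v, ⟨hv, hvA⟩, hv0, inv_empty ρ v⟩⟩
  obtain ⟨B, hBP, hBmax⟩ := Finset.exists_max_image P' Finset.card hP'ne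
  have hBP' := hBP
  rw [hP', mem_filter, mem_powerset] at hBP'
  obtain ⟨hBA, u, hu, hu0, huB⟩ := hBP'
  have hAcne : Aᶜ.Nonempty := by
    rw [← card_pos, card_compl, Fintype.card_fin]; omega
  obtain ⟨x₀, hx₀⟩ := hAcne
  have hB1 : 1 ≤ B.card := by
    have : ({x₀} : Finset (Fin n)) ∈ P' := by
      rw [hP', mem_filter, mem_powerset]
      exact ⟨by simpa using hx₀, u, hu, hu0, inv_singleton ρ x₀ u⟩
    simpa using hBmax _ this
  have hG := lemmaG ρ Aᶜ.card Aᶜ rfl NA hNAs B.card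
    (fun Z hZ hZc u' hu' hZu => by
      by_contra hne
      have : Z ∈ P' := by
        rw [hP', mem_filter, mem_powerset]
        exact ⟨hZ, u', hu', hne, hZu⟩
      have := hBmax Z this
      omega) _ u hu hu0 (hCC u hu)
  have hc : ((Aᶜ.card : ℕ) : ℝ) = n - A.card := by
    rw [card_compl, Fintype.card_fin, Nat.cast_sub hAle]
  rw [hc] at hG
  refine ⟨A, B, u, hu.1, hu0, hu.2, huB, ?_, hAlt, hB1, ?_, ?_, by linarith⟩
  · rw [Finset.disjoint_left]
    intro x hxA hxB
    exact (mem_compl.mp (hBA hxB)) hxA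
  · by_contra hlt
    rw [not_le] at hlt
    exact hu0 (hmaxA B hlt u hu.1 huB)
  · have := card_le_card hBA
    rwa [card_compl, Fintype.card_fin] at this

end Pool.Agent.RandTransp
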