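import Pool.Agent.Lib.MP_c0051b_pr.Ops
import Pool.Agent.Lib.MP_c0051b_pr.Defs

/-! Basic facts on the walk as a convolution. -/

open Finset Equiv
open scoped RealInnerProductSpace

namespace Pool.Agent.RandTransp

variable {n : ℕ}

/-- the step distribution -/
noncomputable def K1 (n : ℕ) (g : Perm (Fin n)) : ℝ :=
  ((univ.filter fun p : Fin n × Fin n => swap p.1 p.2 = g).card : ℝ) / (n : ℝ) ^ 2

lemma stepProb_eq (τ σ : Perm (Fin n)) : stepProb n τ σ = K1 n (τ⁻¹ * σ) := by
  unfold stepProb K1
  congr 3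
  ext p
  simp only [mem_filter, mem_univ, true_and]
  rw [eq_inv_mul_iff_mul_eq]

lemma K1_cl : IsCl (K1 n) := by
  constructor
  · intro g k
    unfold K1
    congr 2
    refine Finset.card_equiv (Equiv.prodCongr g⁻¹ g⁻¹) ?_
    rintro ⟨i, j⟩
    simp only [mem_filter, mem_univ, true_and, Equiv.prodCongr_apply, Prod.map_apply]
    rw [Equiv.swap_apply_apply]
    constructor
    · intro h; rw [h]; group
    · intro h; rw [← h]; group
  · intro k
    unfold K1
    congr 3
    ext p
    simp only [mem_filter, mem_univ, true_and]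
    constructor
    · intro h; rw [← inv_inv k, ← h, swap_inv]
    · intro h; rw [← h, swap_inv]

lemma walk_succ (t : ℕ) (σ : Perm (Fin n)) : walk n (t + 1) σ = ∑ τ, walk n t τ * K1 n (τ⁻¹ * σ) := by
  simp only [walk, stepProb_eq]

lemma walk_cl (t : ℕ) : IsCl (walk n t) := by
  induction t with
  | zero =>
    constructor
    · intro g k
      simp only [walk]
      congr 1
      rw [eq_iff_iff]
      constructor
      · intro h
        have : k = g⁻¹ * (g * k * g⁻¹) * g := by group
        rw [this, h]; group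
      · rintro rfl; group
    · intro k
      simp only [walk, inv_eq_one]
  | succ t ih =>
    obtain ⟨h1, h2⟩ := ih
    constructor
    · intro g k
      rw [walk_succ, walk_succ]
      refine Fintype.sum_equiv (MulAut.conj g⁻¹).toEquiv _ _ fun τ => ?_
      have e : (MulAut.conj g⁻¹).toEquiv τ = g⁻¹ * τ * g := by
        change MulAut.conj g⁻¹ τ = _
        rw [MulAut.conj_apply, inv_inv]
      rw [e]
      have e1 : walk n t (g⁻¹ * τ * g) = walk n t τ := by
        have := h1 g⁻¹ τ
        rwa [inv_inv] at this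
      have e2 : K1 n (τ⁻¹ * (g * k * g⁻¹)) = K1 n ((g⁻¹ * τ * g)⁻¹ * k) := by
        have := K1_cl.1 g ((g⁻¹ * τ * g)⁻¹ * k)
        rw [← this]
        congr 1
        group
      rw [e1, e2]
    · intro k
      rw [walk_succ, walk_succ]
      refine Fintype.sum_equiv (Equiv.inv _) _ _ fun τ => ?_
      rw [Equiv.inv_apply, h2, inv_inv]
      congr 1
      have e1 : K1 n (τ⁻¹ * k⁻¹) = K1 n (k * τ) := by
        have := K1_cl.2 (k * τ)
        rwa [mul_inv_rev] at this
      have e2 : K1 n (k * τ) = K1 n (τ * k) := by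
        have := K1_cl.1 τ (k * τ)
        rw [← this]
        congr 1
        group
      rw [e1, e2]

lemma Lam_K1 (f : E n) : Lam (K1 n) f = ((n : ℝ) ^ 2)⁻¹ • QL reg univ univ f := by
  rw [Lam_apply, QL_apply]
  have h1 : ∑ x : Fin n, ∑ y : Fin n, reg (swap x y) f = ∑ p : Fin n × Fin n, reg (swap p.1 p.2) f := by
    rw [Fintype.sum_prod_type]
  rw [h1, ← Finset.sum_fiberwise (s := univ) (g := fun p : Fin n × Fin n => swap p.1 p.2), smul_sum]
  refine sum_congr rfl fun k _ => ?_
  have h2 : ∑ p ∈ univ.filter (fun p : Fin n × Fin n => swap p.1 p.2 = k), reg (swap p.1 p.2) f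
      = ((univ.filter (fun p : Fin n × Fin n => swap p.1 p.2 = k)).card : ℝ) • reg k f := by
    rw [Nat.cast_smul_eq_nsmul, ← Finset.sum_const]
    refine sum_congr rfl fun p hp => ?_
    rw [(mem_filter.mp hp).2]
  rw [h2, smul_smul]
  unfold K1
  congr 1
  rw [div_eq_mul_inv, mul_comm]

lemma Lam_walk_zero (f : E n) : Lam (walk n 0) f = f := by
  rw [Lam_apply]
  simp only [walk, ite_smul, one_smul, zero_smul]
  rw [Finset.sum_ite_eq' univ (1 : Perm (Fin n)) (fun k => reg k f)]
  simp only [mem_univ, if_true]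
  exact rho_one reg f

lemma Lam_walk_succ (t : ℕ) (f : E n) : Lam (walk n (t + 1)) f = Lam (walk n t) (Lam (K1 n) f) := by
  rw [Lam_apply, Lam_apply]
  simp_rw [Lam_apply (K1 n), map_sum, map_smul, rho_mul, walk_succ, sum_smul, smul_sum]
  rw [Finset.sum_comm]
  refine sum_congr rfl fun τ _ => ?_
  refine Fintype.sum_equiv (Equiv.mulLeft τ⁻¹) _ _ fun k => ?_
  rw [Equiv.coe_mulLeft, smul_smul, mul_inv_cancel_left]

lemma Lam_walk_eig (t : ℕ) {f : E n} {r : ℝ} (hf : Lam (K1 n) f = r • f) :
    Lam (walk n t) f = (r ^ t) • f := by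
  induction t with
  | zero => rw [Lam_walk_zero, pow_zero, one_smul]
  | succ t ih => rw [Lam_walk_succ, hf, map_smul, ih, smul_smul, pow_succ, mul_comm]

end Pool.Agent.RandTransp
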